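import Pool.Agent.Q285.Quad.Defs

set_option autoImplicit false

/-!
# Areas: lines are null, triangles, and bounds for polygons by fans of triangles
-/

namespace Pool.Agent.Q285.Quad

open MeasureTheory Set

/-- the determinant -/
def det (d e : ℝ × ℝ) : ℝ := d.1 * e.2 - d.2 * e.1

theorem null_line (α β γ : ℝ) (h : α ≠ 0 ∨ β ≠ 0) :
    volume {x : ℝ × ℝ | α * x.1 + β * x.2 + γ = 0} = 0 := by
  have hm : MeasurableSet {x : ℝ × ℝ | α * x.1 + β * x.2 + γ = 0} :=
    measurableSet_eq_fun (by fun_prop) measurable_const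
  by_cases hβ : β = 0
  · have hα : α ≠ 0 := h.resolve_right (fun h => h hβ)
    have : {x : ℝ × ℝ | α * x.1 + β * x.2 + γ = 0} ⊆ {-γ / α} ×ˢ univ := by
      rintro ⟨a, b⟩ hx
      simp only [mem_ofPred_eq, hβ, zero_mul, add_zero] at hx
      refine ⟨?_, mem_univ _⟩
      simp only [mem_singleton_iff]
      field_simp
      linarith
    refine measure_mono_null this ?_
    rw [Measure.volume_eq_prod, Measure.prod_prod]
    simp
  · rw [Measure.volume_eq_prod, Measure.measure_prod_null hm]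
    refine Filter.Eventually.of_forall fun a => ?_
    have : Prod.mk a ⁻¹' {x : ℝ × ℝ | α * x.1 + β * x.2 + γ = 0} ⊆ {(-γ - α * a) / β} := by
      intro b hb
      simp only [mem_preimage, mem_ofPred_eq] at hb
      simp only [mem_singleton_iff]
      field_simp
      linarith
    exact measure_mono_null this (by simp)

/-- the triangle with vertices `X`, `X + d`, `X + e` -/
def tri (X d e : ℝ × ℝ) : Set (ℝ × ℝ) :=
  {x | ∃ s t : ℝ, 0 ≤ s ∧ 0 ≤ t ∧ s + t ≤ 1 ∧ x = X + s • d + t • e}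

/-- the standard triangle -/
def stdTri : Set (ℝ × ℝ) := {p | 0 ≤ p.1 ∧ 0 ≤ p.2 ∧ p.1 + p.2 ≤ 1}

theorem isClosed_aff (α β γ : ℝ) : IsClosed {x : ℝ × ℝ | 0 ≤ α * x.1 + β * x.2 + γ} :=
  isClosed_le continuous_const (by fun_prop)

theorem measurable_stdTri : MeasurableSet stdTri := by
  have : stdTri = {x : ℝ × ℝ | 0 ≤ 1 * x.1 + 0 * x.2 + 0} ∩
      ({x : ℝ × ℝ | 0 ≤ 0 * x.1 + 1 * x.2 + 0} ∩ {x : ℝ × ℝ | 0 ≤ (-1) * x.1 + (-1) * x.2 + 1}) := by
    ext x
    simp only [stdTri, mem_ofPred_eq, mem_inter_iff]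
    constructor
    · rintro ⟨h1, h2, h3⟩
      refine ⟨by linarith, by linarith, by linarith⟩
    · rintro ⟨h1, h2, h3⟩
      refine ⟨by linarith, by linarith, by linarith⟩
  rw [this]
  exact ((isClosed_aff _ _ _).inter ((isClosed_aff _ _ _).inter (isClosed_aff _ _ _))).measurableSet

theorem volume_stdTri : volume stdTri = ENNReal.ofReal (1 / 2) := by
  let S' : Set (ℝ × ℝ) := {p | p.1 ≤ 1 ∧ p.2 ≤ 1 ∧ 1 ≤ p.1 + p.2}
  have h1 : volume S' = volume stdTri := by
    have h : S' = (fun p : ℝ × ℝ => (1, 1) - p) ⁻¹' stdTri := by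
      ext ⟨a, b⟩
      simp only [S', stdTri, mem_ofPred_eq, mem_preimage, Prod.fst_sub, Prod.snd_sub]
      constructor
      · rintro ⟨h1, h2, h3⟩
        refine ⟨by linarith, by linarith, by linarith⟩
      · rintro ⟨h1, h2, h3⟩
        refine ⟨by linarith, by linarith, by linarith⟩
    rw [h]
    exact (Measure.measurePreserving_sub_left volume ((1, 1) : ℝ × ℝ)).measure_preimage
      measurable_stdTri.nullMeasurableSet
  have hS' : MeasurableSet S' := by
    have : S' = {x : ℝ × ℝ | 0 ≤ (-1) * x.1 + 0 * x.2 + 1} ∩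
        ({x : ℝ × ℝ | 0 ≤ 0 * x.1 + (-1) * x.2 + 1} ∩
          {x : ℝ × ℝ | 0 ≤ 1 * x.1 + 1 * x.2 + (-1)}) := by
      ext x
      simp only [S', mem_ofPred_eq, mem_inter_iff]
      constructor
      · rintro ⟨h1, h2, h3⟩
        refine ⟨by linarith, by linarith, by linarith⟩
      · rintro ⟨h1, h2, h3⟩
        refine ⟨by linarith, by linarith, by linarith⟩
    rw [this]
    exact ((isClosed_aff _ _ _).inter
      ((isClosed_aff _ _ _).inter (isClosed_aff _ _ _))).measurableSet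
  have h2 : volume (stdTri ∪ S') = 1 := by
    have : stdTri ∪ S' = Icc (0 : ℝ) 1 ×ˢ Icc (0 : ℝ) 1 := by
      ext ⟨a, b⟩
      simp only [S', stdTri, mem_union, mem_ofPred_eq, mem_prod, mem_Icc]
      constructor
      · rintro (⟨h1, h2, h3⟩ | ⟨h1, h2, h3⟩)
        · exact ⟨⟨h1, by linarith⟩, ⟨h2, by linarith⟩⟩
        · exact ⟨⟨by linarith, h1⟩, ⟨by linarith, h2⟩⟩
      · rintro ⟨⟨h1, h2⟩, ⟨h3, h4⟩⟩
        rcases le_total (a + b) 1 with h | h
        · exact Or.inl ⟨h1, h3, h⟩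
        · exact Or.inr ⟨h2, h4, h⟩
    rw [this, Measure.volume_eq_prod, Measure.prod_prod]
    simp
  have h3 : volume (stdTri ∩ S') = 0 := by
    refine measure_mono_null ?_ (null_line 1 1 (-1) (Or.inl one_ne_zero))
    rintro x ⟨⟨-, -, h⟩, ⟨-, -, h'⟩⟩
    simp only [mem_ofPred_eq]
    linarith
  have h4 := measure_union_add_inter stdTri hS' (μ := (volume : Measure (ℝ × ℝ)))
  rw [h2, h3, h1, add_zero, ← two_mul] at h4
  have h5 : volume stdTri = 1 / 2 := by
    rw [ENNReal.eq_div_iff (by norm_num) (by norm_num)]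
    exact h4.symm
  rw [h5, ENNReal.ofReal_div_of_pos (by norm_num)]
  simp

theorem tri_eq (X d e : ℝ × ℝ) : tri X d e = (fun y => X + y) '' ((Matrix.toLin
    (Module.Basis.finTwoProd ℝ) (Module.Basis.finTwoProd ℝ) !![d.1, e.1; d.2, e.2]) '' stdTri) := by
  ext x
  simp only [tri, stdTri, mem_ofPred_eq, mem_image, exists_exists_and_eq_and,
    Matrix.toLin_finTwoProd_apply]
  constructor
  · rintro ⟨s, t, hs, ht, hst, rfl⟩
    refine ⟨(s, t), ⟨hs, ht, hst⟩, ?_⟩
    ext <;> simp <;> ring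
  · rintro ⟨⟨s, t⟩, ⟨hs, ht, hst⟩, rfl⟩
    refine ⟨s, t, hs, ht, hst, ?_⟩
    ext <;> simp <;> ring

theorem volume_tri (X d e : ℝ × ℝ) : volume (tri X d e) = ENNReal.ofReal (|det d e| / 2) := by
  rw [tri_eq, image_add_left, measure_preimage_add, Measure.addHaar_image_linearMap,
    LinearMap.det_toLin, Matrix.det_fin_two_of, volume_stdTri, ← ENNReal.ofReal_mul (abs_nonneg _)]
  congr 1
  rw [det]
  ring_nf

theorem mem_tri_iff {X d e x : ℝ × ℝ} (hD : 0 < det d e) (h1 : 0 ≤ det d (x - X))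
    (h2 : det e (x - X) ≤ 0) (h3 : 0 ≤ det (e - d) (x - (X + d))) : x ∈ tri X d e := by
  refine ⟨-det e (x - X) / det d e, det d (x - X) / det d e, ?_, ?_, ?_, ?_⟩
  · exact div_nonneg (by linarith) hD.le
  · exact div_nonneg h1 hD.le
  · rw [← add_div, div_le_one hD]
    simp only [det, Prod.fst_sub, Prod.snd_sub, Prod.fst_add, Prod.snd_add] at *
    linarith
  · have hD' : d.1 * e.2 - d.2 * e.1 ≠ 0 := ne_of_gt hD
    ext
    · simp only [det, Prod.fst_sub, Prod.snd_sub, Prod.fst_add, Prod.smul_fst, smul_eq_mul]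
      rw [div_mul_eq_mul_div, div_mul_eq_mul_div, add_assoc, ← add_div, ← sub_eq_iff_eq_add',
        eq_div_iff hD']
      ring
    · simp only [det, Prod.fst_sub, Prod.snd_sub, Prod.snd_add, Prod.smul_snd, smul_eq_mul]
      rw [div_mul_eq_mul_div, div_mul_eq_mul_div, add_assoc, ← add_div, ← sub_eq_iff_eq_add',
        eq_div_iff hD']
      ring

theorem tri_subset {K : Set (ℝ × ℝ)} (hK : Convex ℝ K) {X d e : ℝ × ℝ} (hX : X ∈ K)
    (hd : X + d ∈ K) (he : X + e ∈ K) : tri X d e ⊆ K := by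
  rintro x ⟨s, t, hs, ht, hst, rfl⟩
  have h := hK.sum_mem (t := Finset.univ) (w := ![1 - s - t, s, t])
    (z := ![X, X + d, X + e]) (by
      intro i _
      fin_cases i <;> simp <;> linarith) (by simp [Fin.sum_univ_three]; ring) (by
      intro i _
      fin_cases i <;> simp [hX, hd, he])
  simp only [Fin.sum_univ_three, Matrix.cons_val_zero, Matrix.cons_val_one, Matrix.cons_val] at h
  convert h using 1
  ext <;> simp <;> ring

end Pool.Agent.Q285.Quad
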