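import Pool.Agent.Q285.Quad.Area

set_option autoImplicit false

/-!
# Bisecting lines of convex bodies, and zeros of the quadrant area
-/

namespace Pool.Agent.Q285.Quad

open MeasureTheory Set Filter Topology

/-- the closed half plane `c ≤ ⟨x, w⟩` -/
def hp (w : ℝ × ℝ) (c : ℝ) : Set (ℝ × ℝ) := {x | c ≤ dot x w}

/-- the closed half plane `⟨x, w⟩ ≤ c` -/
def hn (w : ℝ × ℝ) (c : ℝ) : Set (ℝ × ℝ) := {x | dot x w ≤ c}

theorem ne_zero_iff {w : ℝ × ℝ} (h : w ≠ 0) : w.1 ≠ 0 ∨ w.2 ≠ 0 := by
  by_contra h'
  push Not at h'
  exact h (Prod.ext h'.1 h'.2)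

theorem continuous_dot (w : ℝ × ℝ) : Continuous fun x => dot x w := by
  unfold dot
  fun_prop

theorem isClosed_hp (w : ℝ × ℝ) (c : ℝ) : IsClosed (hp w c) :=
  isClosed_le continuous_const (continuous_dot w)

theorem isClosed_hn (w : ℝ × ℝ) (c : ℝ) : IsClosed (hn w c) :=
  isClosed_le (continuous_dot w) continuous_const

theorem null_dot {w : ℝ × ℝ} (h : w ≠ 0) (c : ℝ) : volume {x : ℝ × ℝ | dot x w = c} = 0 := by
  have := null_line w.1 w.2 (-c) (ne_zero_iff h)
  convert this using 2
  ext x
  simp only [mem_ofPred_eq, dot]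
  constructor <;> intro h <;> linarith

/-- splitting an area by a line -/
theorem split {S : Set (ℝ × ℝ)} (hS : volume S ≠ ⊤) (hm : MeasurableSet S) {w : ℝ × ℝ}
    (h : w ≠ 0) (c : ℝ) :
    volume.real (S ∩ hp w c) + volume.real (S ∩ hn w c) = volume.real S := by
  have h1 := measureReal_inter_add_sdiff (μ := volume) (s := S) (t := hp w c)
    (isClosed_hp w c).measurableSet hS
  rw [← h1]
  congr 1
  refine measureReal_congr ?_
  have h2 : ∀ᵐ x : ℝ × ℝ, dot x w ≠ c := by
    rw [ae_iff]
    simpa using null_dot h c
  filter_upwards [h2] with x hx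
  apply propext
  show (x ∈ S ∧ x ∈ hn w c) ↔ (x ∈ S ∧ x ∉ hp w c)
  simp only [hn, hp, mem_ofPred_eq, not_le]
  constructor
  · rintro ⟨h3, h4⟩
    exact ⟨h3, lt_of_le_of_ne h4 hx⟩
  · rintro ⟨h3, h4⟩
    exact ⟨h3, h4.le⟩

theorem continuousAt_area {P : Type*} [TopologicalSpace P] [FirstCountableTopology P]
    {R : Set (ℝ × ℝ)} (hR : volume R ≠ ⊤) (a b : P → ℝ × ℝ → ℝ)
    (ha : ∀ x, Continuous fun p => a p x) (hb : ∀ x, Continuous fun p => b p x)
    (ham : ∀ p, Measurable (a p)) (hbm : ∀ p, Measurable (b p)) (p0 : P)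
    (h0 : volume {x | a p0 x = 0} = 0) (h1 : volume {x | b p0 x = 0} = 0) :
    ContinuousAt (fun p => volume.real (R ∩ ({x | 0 ≤ a p x} ∩ {x | 0 ≤ b p x}))) p0 := by
  have hm : ∀ p, MeasurableSet ({x | 0 ≤ a p x} ∩ {x | 0 ≤ b p x}) := fun p =>
    (measurableSet_le measurable_const (ham p)).inter (measurableSet_le measurable_const (hbm p))
  have key : ∀ p, volume.real (R ∩ ({x | 0 ≤ a p x} ∩ {x | 0 ≤ b p x})) =
      ∫ x in R, ({x | 0 ≤ a p x} ∩ {x | 0 ≤ b p x}).indicator 1 x := by
    intro p
    rw [integral_indicator_one (hm p), measureReal_restrict_apply (hm p), inter_comm]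
  simp only [key]
  haveI : IsFiniteMeasure (volume.restrict R) := ⟨by
    rw [Measure.restrict_apply_univ]
    exact lt_top_iff_ne_top.2 hR⟩
  refine continuousAt_of_dominated (bound := fun _ => (1 : ℝ)) ?_ ?_ (integrable_const _) ?_
  · exact Eventually.of_forall fun p =>
      ((measurable_one.indicator (hm p))).aestronglyMeasurable
  · refine Eventually.of_forall fun p => Eventually.of_forall fun x => ?_
    by_cases h : x ∈ ({x | 0 ≤ a p x} ∩ {x | 0 ≤ b p x}) <;> simp [indicator, h]
  · have h2 : ∀ᵐ x : ℝ × ℝ, a p0 x ≠ 0 := by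
      rw [ae_iff]
      simpa using h0
    have h3 : ∀ᵐ x : ℝ × ℝ, b p0 x ≠ 0 := by
      rw [ae_iff]
      simpa using h1
    refine ae_restrict_of_ae ?_
    filter_upwards [h2, h3] with x hx hx'
    have hA := (ha x).continuousAt (x := p0)
    have hB := (hb x).continuousAt (x := p0)
    rcases lt_or_gt_of_ne hx with h4 | h4
    · refine (continuousAt_const (y := (0 : ℝ))).congr ?_
      filter_upwards [hA.eventually_lt continuousAt_const h4] with p hp
      rw [indicator_of_notMem]
      rintro ⟨h5, -⟩
      simp only [mem_ofPred_eq] at h5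
      linarith
    · rcases lt_or_gt_of_ne hx' with h6 | h6
      · refine (continuousAt_const (y := (0 : ℝ))).congr ?_
        filter_upwards [hB.eventually_lt continuousAt_const h6] with p hp
        rw [indicator_of_notMem]
        rintro ⟨-, h5⟩
        simp only [mem_ofPred_eq] at h5
        linarith
      · refine (continuousAt_const (y := (1 : ℝ))).congr ?_
        filter_upwards [continuousAt_const.eventually_lt hA h4,
          continuousAt_const.eventually_lt hB h6] with p hp hp'
        rw [indicator_of_mem]
        · rfl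
        · exact ⟨hp.le, hp'.le⟩

section body

variable {R : Set (ℝ × ℝ)} (hconv : Convex ℝ R) (hcomp : IsCompact R)
  (hint : (interior R).Nonempty)

include hcomp in
theorem vol_ne_top : volume R ≠ ⊤ := hcomp.measure_lt_top.ne

include hcomp hint in
theorem vol_pos : 0 < volume.real R := by
  rw [measureReal_def, ENNReal.toReal_pos_iff]
  refine ⟨?_, hcomp.measure_lt_top⟩
  exact (isOpen_interior.measure_pos _ hint).trans_le (measure_mono interior_subset)

include hcomp in
/-- continuity of the area cut off by a half plane -/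
theorem continuous_F {P : Type*} [TopologicalSpace P] [FirstCountableTopology P]
    (w : P → ℝ × ℝ) (c : P → ℝ) (hw : Continuous w) (hc : Continuous c) (hw0 : ∀ p, w p ≠ 0) :
    Continuous fun p => volume.real (R ∩ hp (w p) (c p)) := by
  rw [continuous_iff_continuousAt]
  intro p0
  have h := continuousAt_area (R := R) (vol_ne_top hcomp) (fun p x => dot x (w p) - c p)
    (fun _ _ => 1) (fun x => by unfold dot; fun_prop) (fun x => continuous_const)
    (fun p => ((continuous_dot (w p)).sub continuous_const).measurable)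
    (fun p => measurable_const) p0 (by simpa [sub_eq_zero] using null_dot (hw0 p0) (c p0)) (by simp)
  refine h.congr (Eventually.of_forall fun p => ?_)
  simp only
  congr 1
  ext x
  simp [hp]

include hcomp in
/-- continuity of the area cut off by two half planes -/
theorem continuous_G {P : Type*} [TopologicalSpace P] [FirstCountableTopology P]
    (w v : P → ℝ × ℝ) (c d : P → ℝ) (hw : Continuous w) (hv : Continuous v) (hc : Continuous c)
    (hd : Continuous d) (hw0 : ∀ p, w p ≠ 0) (hv0 : ∀ p, v p ≠ 0) :
    Continuous fun p => volume.real (R ∩ (hp (w p) (c p) ∩ hp (v p) (d p))) := by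
  rw [continuous_iff_continuousAt]
  intro p0
  have h := continuousAt_area (R := R) (vol_ne_top hcomp) (fun p x => dot x (w p) - c p)
    (fun p x => dot x (v p) - d p) (fun x => by unfold dot; fun_prop)
    (fun x => by unfold dot; fun_prop)
    (fun p => ((continuous_dot (w p)).sub continuous_const).measurable)
    (fun p => ((continuous_dot (v p)).sub continuous_const).measurable) p0
    (by simpa [sub_eq_zero] using null_dot (hw0 p0) (c p0))
    (by simpa [sub_eq_zero] using null_dot (hv0 p0) (d p0))
  refine h.congr (Eventually.of_forall fun p => ?_)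
  simp only
  congr 1
  ext x
  simp [hp]

include hcomp in
theorem F_anti (w : ℝ × ℝ) {c c' : ℝ} (h : c ≤ c') :
    volume.real (R ∩ hp w c') ≤ volume.real (R ∩ hp w c) :=
  measureReal_mono (inter_subset_inter_right _ fun x hx => le_trans h hx)
    (measure_ne_top_of_subset inter_subset_left (vol_ne_top hcomp))

include hcomp in
theorem exists_bisector {w : ℝ × ℝ} (hw : w ≠ 0) :
    ∃ c, volume.real (R ∩ hp w c) = volume.real R / 2 := by
  obtain ⟨C, hC⟩ := hcomp.exists_bound_of_continuousOn (continuous_dot w).continuousOn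
  have hcont : Continuous fun c : ℝ => volume.real (R ∩ hp w c) :=
    continuous_F hcomp (fun _ => w) (fun c => c) continuous_const continuous_id fun _ => hw
  have hV : 0 ≤ volume.real R := measureReal_nonneg
  have h1 : volume.real (R ∩ hp w (-C)) = volume.real R := by
    congr 1
    apply inter_eq_left.2
    intro x hx
    have := hC x hx
    rw [Real.norm_eq_abs, abs_le] at this
    exact this.1
  have h2 : volume.real (R ∩ hp w (C + 1)) = 0 := by
    have : R ∩ hp w (C + 1) = ∅ := by
      ext x
      simp only [hp, mem_inter_iff, mem_ofPred_eq, mem_empty_iff_false, iff_false, not_and, not_le]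
      intro hx
      have := hC x hx
      rw [Real.norm_eq_abs, abs_le] at this
      linarith
    rw [this]
    simp
  have hmem : volume.real R / 2 ∈ Icc (volume.real (R ∩ hp w (C + 1)))
      (volume.real (R ∩ hp w (-C))) := by
    rw [h1, h2]
    constructor <;> linarith
  rcases le_total (-C) (C + 1) with h | h
  · obtain ⟨c, -, hc⟩ := intermediate_value_Icc' h hcont.continuousOn hmem
    exact ⟨c, hc⟩
  · obtain ⟨c, -, hc⟩ := intermediate_value_Icc h hcont.continuousOn hmem
    exact ⟨c, hc⟩

include hconv in
/-- a part of a convex set of positive area meets the interior -/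
theorem exists_interior {S : Set (ℝ × ℝ)} (h : 0 < volume.real (R ∩ S)) :
    ∃ x ∈ interior R, x ∈ S := by
  by_contra h'
  push Not at h'
  have h1 : R ∩ S ⊆ frontier R := by
    rintro x ⟨hx, hxS⟩
    refine ⟨subset_closure hx, fun hxi => h' x hxi hxS⟩
  have h2 : volume (R ∩ S) = 0 := measure_mono_null h1 (hconv.addHaar_frontier volume)
  rw [measureReal_def, h2] at h
  simp at h

include hconv hcomp hint in
theorem bisector_unique_aux {w : ℝ × ℝ} (hw : w ≠ 0) {c c' : ℝ} (hcc : c < c')
    (hc : volume.real (R ∩ hp w c) = volume.real R / 2)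
    (hc' : volume.real (R ∩ hp w c') = volume.real R / 2) : False := by
  have hV := vol_pos hcomp hint
  obtain ⟨x, hxi, hx⟩ := exists_interior hconv (S := hp w c') (by rw [hc']; linarith)
  have hsplit := split (vol_ne_top hcomp) hcomp.measurableSet hw c
  obtain ⟨y, hyi, hy⟩ := exists_interior hconv (S := hn w c) (by linarith)
  have hx' : c' ≤ dot x w := hx
  have hy' : dot y w ≤ c := hy
  -- a point between the two lines
  set m := (c + c') / 2 with hm
  set t := (m - dot y w) / (dot x w - dot y w) with ht
  have hpos : 0 < dot x w - dot y w := by linarith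
  have ht0 : 0 ≤ t := div_nonneg (by linarith) hpos.le
  have ht1 : t ≤ 1 := by
    rw [ht, div_le_one hpos]
    linarith
  set z := t • x + (1 - t) • y with hz
  have hzi : z ∈ interior R := hconv.interior hxi hyi ht0 (by linarith) (by ring)
  have hzm : dot z w = m := by
    have : dot z w = dot y w + t * (dot x w - dot y w) := by
      simp only [hz, dot, Prod.fst_add, Prod.snd_add, Prod.smul_fst, Prod.smul_snd, smul_eq_mul]
      ring
    rw [this, ht, div_mul_cancel₀ _ hpos.ne']
    ring
  have hopen : IsOpen (interior R ∩ ({x | c < dot x w} ∩ {x | dot x w < c'})) :=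
    isOpen_interior.inter ((isOpen_lt continuous_const (continuous_dot w)).inter
      (isOpen_lt (continuous_dot w) continuous_const))
  have hne : (interior R ∩ ({x | c < dot x w} ∩ {x | dot x w < c'})).Nonempty := by
    refine ⟨z, hzi, ?_, ?_⟩ <;> simp only [mem_ofPred_eq, hzm, hm] <;> linarith
  have hpos2 := hopen.measure_pos volume hne
  have hsub : interior R ∩ ({x | c < dot x w} ∩ {x | dot x w < c'}) ⊆
      (R ∩ hp w c) \ (R ∩ hp w c') := by
    rintro a ⟨ha, ha1, ha2⟩
    refine ⟨⟨interior_subset ha, ?_⟩, ?_⟩
    · exact (show c < dot a w from ha1).le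
    · rintro ⟨-, h⟩
      have h1 : dot a w < c' := ha2
      have h2 : c' ≤ dot a w := h
      linarith
  have hzero : volume ((R ∩ hp w c) \ (R ∩ hp w c')) = 0 := by
    rw [measure_sdiff (inter_subset_inter_right R
        (show hp w c' ⊆ hp w c from fun x hx => le_trans hcc.le hx))
      (hcomp.measurableSet.inter (isClosed_hp w c').measurableSet).nullMeasurableSet
      (measure_ne_top_of_subset inter_subset_left (vol_ne_top hcomp))]
    have h1 : volume (R ∩ hp w c) = volume (R ∩ hp w c') := by
      rw [← ENNReal.toReal_eq_toReal_iff'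
        (measure_ne_top_of_subset inter_subset_left (vol_ne_top hcomp))
        (measure_ne_top_of_subset inter_subset_left (vol_ne_top hcomp))]
      exact hc.trans hc'.symm
    rw [h1, tsub_self]
  exact absurd (measure_mono_null hsub hzero) hpos2.ne'

include hconv hcomp hint in
theorem bisector_unique {w : ℝ × ℝ} (hw : w ≠ 0) {c c' : ℝ}
    (hc : volume.real (R ∩ hp w c) = volume.real R / 2)
    (hc' : volume.real (R ∩ hp w c') = volume.real R / 2) : c = c' := by
  rcases lt_trichotomy c c' with h | h | h
  · exact (bisector_unique_aux hconv hcomp hint hw h hc hc').elim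
  · exact h
  · exact (bisector_unique_aux hconv hcomp hint hw h hc' hc).elim

include hconv hcomp hint in
theorem continuous_bisector (w : ℝ → ℝ × ℝ) (hw : Continuous w) (hw0 : ∀ s, w s ≠ 0) (c : ℝ → ℝ)
    (hc : ∀ s, volume.real (R ∩ hp (w s) (c s)) = volume.real R / 2) : Continuous c := by
  rw [continuous_iff_continuousAt]
  intro s0
  rw [Metric.continuousAt_iff']
  intro ε hε
  have hF : ∀ d, Continuous fun s => volume.real (R ∩ hp (w s) d) := fun d =>
    continuous_F hcomp w (fun _ => d) hw continuous_const hw0
  have h1 : volume.real R / 2 < volume.real (R ∩ hp (w s0) (c s0 - ε)) := by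
    refine lt_of_le_of_ne ((hc s0).symm.le.trans (F_anti hcomp _ (by linarith))) fun h => ?_
    have := bisector_unique hconv hcomp hint (hw0 s0) (hc s0) h.symm
    linarith
  have h2 : volume.real (R ∩ hp (w s0) (c s0 + ε)) < volume.real R / 2 := by
    refine lt_of_le_of_ne ((F_anti hcomp _ (by linarith)).trans (hc s0).le) fun h => ?_
    have := bisector_unique hconv hcomp hint (hw0 s0) (hc s0) h
    linarith
  filter_upwards [continuousAt_const.eventually_lt (hF (c s0 - ε)).continuousAt h1,
    (hF (c s0 + ε)).continuousAt.eventually_lt continuousAt_const h2] with s h3 h4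
  rw [Real.dist_eq, abs_lt]
  constructor
  · by_contra h5
    have h6 : volume.real (R ∩ hp (w s) (c s0 - ε)) ≤ volume.real (R ∩ hp (w s) (c s)) :=
      F_anti hcomp _ (by linarith)
    rw [hc s] at h6
    linarith
  · by_contra h5
    have h6 : volume.real (R ∩ hp (w s) (c s)) ≤ volume.real (R ∩ hp (w s) (c s0 + ε)) :=
      F_anti hcomp _ (by linarith)
    rw [hc s] at h6
    linarith

end body

end Pool.Agent.Q285.Quad
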