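import Pool.Agent.Q285.Quad.Area

set_option autoImplicit false

/-!
# Fans of triangles
-/

namespace Pool.Agent.Q285.Quad

open MeasureTheory Set

/-- half the sum of the determinants of a fan -/
noncomputable def fanSum (X : ℝ × ℝ) : List (ℝ × ℝ) → ℝ
  | b0 :: b1 :: l => det (b0 - X) (b1 - X) / 2 + fanSum X (b1 :: l)
  | _ => 0

/-- the union of the triangles of a fan -/
def fanUnion (X : ℝ × ℝ) : List (ℝ × ℝ) → Set (ℝ × ℝ)
  | b0 :: b1 :: l => tri X (b0 - X) (b1 - X) ∪ fanUnion X (b1 :: l)
  | _ => ∅

/-- `x` lies to the left of all the edges of a path -/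
def inEdges (x : ℝ × ℝ) : List (ℝ × ℝ) → Prop
  | b0 :: b1 :: l => 0 ≤ det (b1 - b0) (x - b0) ∧ inEdges x (b1 :: l)
  | _ => True

/-- consecutive determinants are positive -/
def fanPos (X : ℝ × ℝ) : List (ℝ × ℝ) → Prop
  | b0 :: b1 :: l => 0 < det (b0 - X) (b1 - X) ∧ fanPos X (b1 :: l)
  | _ => True

theorem det_eq_aff (d X x : ℝ × ℝ) :
    det d (x - X) = (-d.2) * x.1 + d.1 * x.2 + (d.2 * X.1 - d.1 * X.2) := by
  simp only [det, Prod.fst_sub, Prod.snd_sub]
  ring

theorem fan_lower (X : ℝ × ℝ) (l : List (ℝ × ℝ)) : ∀ K : Set (ℝ × ℝ), Convex ℝ K →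
    MeasurableSet K → X ∈ K → (∀ b ∈ l, b ∈ K) →
    l.Pairwise (fun b b' => 0 ≤ det (b - X) (b' - X)) →
    ENNReal.ofReal (fanSum X l) ≤ volume K := by
  induction l with
  | nil => intro K _ _ _ _ _; simp [fanSum]
  | cons b0 l ih =>
    intro K hK hm hX hl hp
    match l, ih, hl, hp with
    | [], _, _, _ => simp [fanSum]
    | b1 :: l, ih, hl, hp =>
      rw [List.pairwise_cons] at hp
      rw [fanSum]
      by_cases h1 : b1 = X
      · have h2 : det (b0 - X) (b1 - X) / 2 = 0 := by
          rw [h1, sub_self]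
          simp [det]
        rw [h2, zero_add]
        exact ih K hK hm hX (fun b hb => hl b (List.mem_cons_of_mem _ hb)) hp.2
      · have hf : MeasurableSet {x : ℝ × ℝ | 0 ≤ det (b1 - X) (x - X)} := by
          simp only [det_eq_aff]
          exact (isClosed_aff _ _ _).measurableSet
        have hc : Convex ℝ {x : ℝ × ℝ | 0 ≤ det (b1 - X) (x - X)} := by
          intro x hx y hy s t hs ht hst
          simp only [mem_ofPred_eq] at hx hy ⊢
          have : det (b1 - X) (s • x + t • y - X) =
              s * det (b1 - X) (x - X) + t * det (b1 - X) (y - X) := by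
            have h3 : t = 1 - s := by linarith
            subst h3
            simp only [det, Prod.fst_sub, Prod.snd_sub, Prod.fst_add, Prod.snd_add,
              Prod.smul_fst, Prod.smul_snd, smul_eq_mul]
            ring
          rw [this]
          positivity
        rw [← measure_inter_add_sdiff K hf]
        refine (ENNReal.ofReal_add_le).trans ?_
        rw [add_comm (ENNReal.ofReal _)]
        refine add_le_add ?_ ?_
        · refine ih _ (hK.inter hc) (hm.inter hf) ⟨hX, ?_⟩ ?_ hp.2
          · simp [det]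
          · intro b hb
            refine ⟨hl b (List.mem_cons_of_mem _ hb), ?_⟩
            rcases List.mem_cons.1 hb with rfl | hb'
            · simp only [mem_ofPred_eq, det]
              exact le_of_eq (by ring)
            · exact (List.pairwise_cons.1 hp.2).1 b hb'
        · have h0 : 0 ≤ det (b0 - X) (b1 - X) := hp.1 b1 (by simp)
          have h2 : ENNReal.ofReal (det (b0 - X) (b1 - X) / 2) =
              volume (tri X (b0 - X) (b1 - X)) := by
            rw [volume_tri, abs_of_nonneg h0]
          rw [h2]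
          have h3 : tri X (b0 - X) (b1 - X) ⊆
              (K \ {x | 0 ≤ det (b1 - X) (x - X)}) ∪ {x | det (b1 - X) (x - X) = 0} := by
            intro x hx
            have hxK : x ∈ K := tri_subset hK hX
              (by rw [add_sub_cancel]; exact hl b0 (by simp))
              (by rw [add_sub_cancel]; exact hl b1 (by simp)) hx
            obtain ⟨s, t, hs, ht, hst, rfl⟩ := hx
            have h4 : det (b1 - X) (X + s • (b0 - X) + t • (b1 - X) - X) =
                -(s * det (b0 - X) (b1 - X)) := by
              simp only [det, Prod.fst_sub, Prod.snd_sub, Prod.fst_add, Prod.snd_add,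
                Prod.smul_fst, Prod.smul_snd, smul_eq_mul]
              ring
            have h5 : 0 ≤ s * det (b0 - X) (b1 - X) := mul_nonneg hs h0
            rcases h5.eq_or_lt with h6 | h6
            · right
              simp only [mem_ofPred_eq, h4, ← h6, neg_zero]
            · left
              refine ⟨hxK, ?_⟩
              simp only [mem_ofPred_eq, h4, not_le]
              linarith
          refine (measure_mono h3).trans ((measure_union_le _ _).trans ?_)
          have h4 : volume {x : ℝ × ℝ | det (b1 - X) (x - X) = 0} = 0 := by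
            simp only [det_eq_aff]
            refine null_line _ _ _ ?_
            by_contra h5
            push Not at h5
            apply h1
            have h6 : b1.2 - X.2 = 0 := by
              have := h5.1
              simp only [Prod.snd_sub] at this
              linarith
            have h7 : b1.1 - X.1 = 0 := by
              have := h5.2
              simp only [Prod.fst_sub] at this
              linarith
            ext <;> linarith
          rw [h4, add_zero]

theorem fanSum_nonneg (X : ℝ × ℝ) (l : List (ℝ × ℝ)) (h : fanPos X l) : 0 ≤ fanSum X l := by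
  induction l with
  | nil => simp [fanSum]
  | cons b0 l ih =>
    match l, ih, h with
    | [], _, _ => simp [fanSum]
    | b1 :: l, ih, h =>
      rw [fanSum]
      have := ih h.2
      have h1 : 0 < det (b0 - X) (b1 - X) := h.1
      linarith

theorem volume_fanUnion_le (X : ℝ × ℝ) (l : List (ℝ × ℝ)) (h : fanPos X l) :
    volume (fanUnion X l) ≤ ENNReal.ofReal (fanSum X l) := by
  induction l with
  | nil => simp [fanUnion]
  | cons b0 l ih =>
    match l, ih, h with
    | [], _, _ => simp [fanUnion]
    | b1 :: l, ih, h =>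
      rw [fanUnion, fanSum]
      have h1 : 0 < det (b0 - X) (b1 - X) := h.1
      rw [ENNReal.ofReal_add (by linarith) (fanSum_nonneg X _ h.2)]
      refine (measure_union_le _ _).trans (add_le_add ?_ (ih h.2))
      rw [volume_tri, abs_of_pos h1]

theorem fanUnion_subset {K : Set (ℝ × ℝ)} (hK : Convex ℝ K) {X : ℝ × ℝ} (hX : X ∈ K)
    (l : List (ℝ × ℝ)) (hl : ∀ b ∈ l, b ∈ K) : fanUnion X l ⊆ K := by
  induction l with
  | nil => simp [fanUnion]
  | cons b0 l ih =>
    match l, ih, hl with
    | [], _, _ => simp [fanUnion]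
    | b1 :: l, ih, hl =>
      rw [fanUnion]
      refine union_subset ?_ (ih fun b hb => hl b (List.mem_cons_of_mem _ hb))
      exact tri_subset hK hX (by rw [add_sub_cancel]; exact hl b0 (by simp))
        (by rw [add_sub_cancel]; exact hl b1 (by simp))

theorem fan_cover (X x : ℝ × ℝ) (l : List (ℝ × ℝ)) : ∀ b0 b1 : ℝ × ℝ,
    0 ≤ det (b0 - X) (x - X) → det ((b1 :: l).getLast (by simp) - X) (x - X) ≤ 0 →
    inEdges x (b0 :: b1 :: l) → fanPos X (b0 :: b1 :: l) → x ∈ fanUnion X (b0 :: b1 :: l) := by
  induction l with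
  | nil =>
    intro b0 b1 h0 h1 he hp
    rw [fanUnion]
    left
    refine mem_tri_iff hp.1 h0 h1 ?_
    have := he.1
    convert this using 2 <;> ext <;> simp
  | cons b2 l ih =>
    intro b0 b1 h0 h1 he hp
    rw [fanUnion]
    rcases le_or_gt (det (b1 - X) (x - X)) 0 with h2 | h2
    · left
      refine mem_tri_iff hp.1 h0 h2 ?_
      have := he.1
      convert this using 2 <;> ext <;> simp
    · right
      exact ih b1 b2 h2.le (by simpa using h1) he.2 hp.2

/-- the closed polygon with vertices `v0 :: v1 :: l` in counterclockwise order -/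
def poly (v0 v1 : ℝ × ℝ) (l : List (ℝ × ℝ)) : Set (ℝ × ℝ) :=
  {x | 0 ≤ det (v1 - v0) (x - v0) ∧ inEdges x (v1 :: l) ∧
    det ((v1 :: l).getLast (by simp) - v0) (x - v0) ≤ 0}

theorem convex_inEdges (l : List (ℝ × ℝ)) : Convex ℝ {x | inEdges x l} := by
  induction l with
  | nil => simpa [inEdges] using convex_univ
  | cons b0 l ih =>
    match l, ih with
    | [], _ => simpa [inEdges] using convex_univ
    | b1 :: l, ih =>
      have h : {x | inEdges x (b0 :: b1 :: l)} =
          {x | 0 ≤ det (b1 - b0) (x - b0)} ∩ {x | inEdges x (b1 :: l)} := rfl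
      rw [h]
      refine Convex.inter ?_ ih
      exact convex_detge _ _
where
  convex_detge (d X : ℝ × ℝ) : Convex ℝ {x : ℝ × ℝ | 0 ≤ det d (x - X)} := by
    intro x hx y hy s t hs ht hst
    simp only [mem_ofPred_eq] at hx hy ⊢
    have : det d (s • x + t • y - X) = s * det d (x - X) + t * det d (y - X) := by
      have h3 : t = 1 - s := by linarith
      subst h3
      simp only [det, Prod.fst_sub, Prod.snd_sub, Prod.fst_add, Prod.snd_add,
        Prod.smul_fst, Prod.smul_snd, smul_eq_mul]
      ring
    rw [this]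
    positivity

theorem convex_detge (d X : ℝ × ℝ) : Convex ℝ {x : ℝ × ℝ | 0 ≤ det d (x - X)} :=
  convex_inEdges.convex_detge d X

theorem convex_detle (d X : ℝ × ℝ) : Convex ℝ {x : ℝ × ℝ | det d (x - X) ≤ 0} := by
  have h : {x : ℝ × ℝ | det d (x - X) ≤ 0} = {x : ℝ × ℝ | 0 ≤ det (-d) (x - X)} := by
    ext x
    simp only [mem_ofPred_eq]
    have : det (-d) (x - X) = -det d (x - X) := by
      simp only [det, Prod.fst_neg, Prod.snd_neg]
      ring
    rw [this]
    constructor <;> intro h <;> linarith
  rw [h]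
  exact convex_detge _ _

theorem convex_poly (v0 v1 : ℝ × ℝ) (l : List (ℝ × ℝ)) : Convex ℝ (poly v0 v1 l) := by
  have h : poly v0 v1 l = {x | 0 ≤ det (v1 - v0) (x - v0)} ∩ ({x | inEdges x (v1 :: l)} ∩
    {x | det ((v1 :: l).getLast (by simp) - v0) (x - v0) ≤ 0}) := rfl
  rw [h]
  exact (convex_detge _ _).inter ((convex_inEdges _).inter (convex_detle _ _))

theorem poly_subset_fan (v0 v1 v2 : ℝ × ℝ) (l : List (ℝ × ℝ)) (hp : fanPos v0 (v1 :: v2 :: l)) :
    poly v0 v1 (v2 :: l) ⊆ fanUnion v0 (v1 :: v2 :: l) := by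
  rintro x ⟨h1, h2, h3⟩
  exact fan_cover v0 x l v1 v2 h1 (by simpa using h3) h2 hp

theorem hull_eq_poly (v0 v1 v2 : ℝ × ℝ) (l : List (ℝ × ℝ)) (hp : fanPos v0 (v1 :: v2 :: l))
    (hv : ∀ v ∈ v0 :: v1 :: v2 :: l, v ∈ poly v0 v1 (v2 :: l)) :
    convexHull ℝ {v | v ∈ v0 :: v1 :: v2 :: l} = poly v0 v1 (v2 :: l) := by
  apply Subset.antisymm
  · exact convexHull_min hv (convex_poly _ _ _)
  · refine (poly_subset_fan v0 v1 v2 l hp).trans ?_
    refine fanUnion_subset (convex_convexHull ℝ _) (subset_convexHull ℝ _ (by simp)) _ ?_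
    intro b hb
    exact subset_convexHull ℝ _ (List.mem_cons_of_mem _ hb)

theorem volume_poly_le (v0 v1 v2 : ℝ × ℝ) (l : List (ℝ × ℝ)) (hp : fanPos v0 (v1 :: v2 :: l)) :
    volume (poly v0 v1 (v2 :: l)) ≤ ENNReal.ofReal (fanSum v0 (v1 :: v2 :: l)) :=
  (measure_mono (poly_subset_fan v0 v1 v2 l hp)).trans (volume_fanUnion_le _ _ hp)

end Pool.Agent.Q285.Quad
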