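import Pool.Agent.Q285.Quad.Count
import Pool.Agent.Q285.Quad.Fan

set_option autoImplicit false

/-!
# An integer checker for sign changes of polygons
-/

namespace Pool.Agent.Q285.Quad

open MeasureTheory Set

/-- cast of an integer point -/
def cz (a : ℤ × ℤ) : ℝ × ℝ := ((a.1 : ℝ), (a.2 : ℝ))

/-- integer determinant of `b - a`, `x - a` -/
def dz (a b x : ℤ × ℤ) : ℤ := (b.1 - a.1) * (x.2 - a.2) - (b.2 - a.2) * (x.1 - a.1)

theorem det_cz (a b x : ℤ × ℤ) : det (cz b - cz a) (cz x - cz a) = (dz a b x : ℝ) := by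
  simp only [det, cz, dz, Prod.fst_sub, Prod.snd_sub]
  push_cast
  ring

theorem cz_inj : Function.Injective cz := by
  intro a b h
  have h1 : (a.1 : ℝ) = b.1 := congrArg Prod.fst h
  have h2 : (a.2 : ℝ) = b.2 := congrArg Prod.snd h
  ext
  · exact_mod_cast h1
  · exact_mod_cast h2

/-- twice the fan sum -/
def fanZ (X : ℤ × ℤ) : List (ℤ × ℤ) → ℤ
  | b0 :: b1 :: l => dz X b0 b1 + fanZ X (b1 :: l)
  | _ => 0

theorem fanSum_cz (X : ℤ × ℤ) (l : List (ℤ × ℤ)) :
    fanSum (cz X) (l.map cz) = (fanZ X l : ℝ) / 2 := by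
  induction l with
  | nil => simp [fanSum, fanZ]
  | cons b0 l ih =>
    match l, ih with
    | [], _ => simp [fanSum, fanZ]
    | b1 :: l, ih =>
      simp only [List.map_cons] at ih ⊢
      rw [fanSum, fanZ, ih, det_cz]
      push_cast
      ring

/-- integer version of `inEdges` -/
def edgesZ (x : ℤ × ℤ) : List (ℤ × ℤ) → Bool
  | b0 :: b1 :: l => decide (0 ≤ dz b0 b1 x) && edgesZ x (b1 :: l)
  | _ => true

theorem inEdges_cz (x : ℤ × ℤ) (l : List (ℤ × ℤ)) (h : edgesZ x l = true) :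
    inEdges (cz x) (l.map cz) := by
  induction l with
  | nil => simp [inEdges]
  | cons b0 l ih =>
    match l, ih, h with
    | [], _, _ => simp [inEdges]
    | b1 :: l, ih, h =>
      simp only [edgesZ, Bool.and_eq_true, decide_eq_true_eq] at h
      simp only [List.map_cons] at ih ⊢
      refine ⟨?_, ih h.2⟩
      rw [det_cz]
      exact_mod_cast h.1

/-- integer version of `fanPos` -/
def posZ (X : ℤ × ℤ) : List (ℤ × ℤ) → Bool
  | b0 :: b1 :: l => decide (0 < dz X b0 b1) && posZ X (b1 :: l)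
  | _ => true

theorem fanPos_cz (X : ℤ × ℤ) (l : List (ℤ × ℤ)) (h : posZ X l = true) :
    fanPos (cz X) (l.map cz) := by
  induction l with
  | nil => simp [fanPos]
  | cons b0 l ih =>
    match l, ih, h with
    | [], _, _ => simp [fanPos]
    | b1 :: l, ih, h =>
      simp only [posZ, Bool.and_eq_true, decide_eq_true_eq] at h
      simp only [List.map_cons] at ih ⊢
      refine ⟨?_, ih h.2⟩
      rw [det_cz]
      exact_mod_cast h.1

/-- `x` is in the polygon `v0 :: v1 :: l` -/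
def inZ (v0 v1 : ℤ × ℤ) (l : List (ℤ × ℤ)) (x : ℤ × ℤ) : Bool :=
  decide (0 ≤ dz v0 v1 x) && edgesZ x (v1 :: l) &&
    decide (dz v0 ((v1 :: l).getLast (by simp)) x ≤ 0)

theorem mem_poly_cz (v0 v1 : ℤ × ℤ) (l : List (ℤ × ℤ)) (x : ℤ × ℤ) (h : inZ v0 v1 l x = true) :
    cz x ∈ poly (cz v0) (cz v1) (l.map cz) := by
  simp only [inZ, Bool.and_eq_true, decide_eq_true_eq] at h
  obtain ⟨⟨h1, h2⟩, h3⟩ := h
  refine ⟨?_, ?_, ?_⟩
  · rw [det_cz]
    exact_mod_cast h1
  · have := inEdges_cz x (v1 :: l) h2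
    simpa using this
  · have h4 : (cz v1 :: l.map cz).getLast (by simp) = cz ((v1 :: l).getLast (by simp)) := by
      have := List.getLast_map (f := cz) (l := v1 :: l) (by simp)
      simpa using this
    rw [h4, det_cz]
    exact_mod_cast h3

/-- integer dot product -/
def dotZ (x y : ℤ × ℤ) : ℤ := x.1 * y.1 + x.2 * y.2

theorem dot_cz (x y : ℤ × ℤ) : dot (cz x) (cz y) = (dotZ x y : ℝ) := by
  simp only [dot, cz, dotZ]
  push_cast
  ring

/-- the intersection of half planes -/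
def halfs (H : List ((ℤ × ℤ) × ℤ)) : Set (ℝ × ℝ) := {x | ∀ h ∈ H, (h.2 : ℝ) ≤ dot x (cz h.1)}

theorem halfs_eq (H : List ((ℤ × ℤ) × ℤ)) : halfs H = ⋂ h ∈ H, hp (cz h.1) (h.2 : ℝ) := by
  ext x
  simp [halfs, hp]

theorem isClosed_halfs (H : List ((ℤ × ℤ) × ℤ)) : IsClosed (halfs H) := by
  rw [halfs_eq]
  exact isClosed_biInter fun h _ => isClosed_hp _ _

theorem convex_hp (w : ℝ × ℝ) (c : ℝ) : Convex ℝ (hp w c) := by
  intro x hx y hy s t hs ht hst
  have hx' : c ≤ dot x w := hx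
  have hy' : c ≤ dot y w := hy
  show c ≤ dot (s • x + t • y) w
  have h1 : dot (s • x + t • y) w = s * dot x w + t * dot y w := by
    simp only [dot, Prod.fst_add, Prod.snd_add, Prod.smul_fst, Prod.smul_snd, smul_eq_mul]
    ring
  rw [h1]
  have h2 : c = s * c + t * c := by rw [← add_mul, hst, one_mul]
  rw [h2]
  exact add_le_add (mul_le_mul_of_nonneg_left hx' hs) (mul_le_mul_of_nonneg_left hy' ht)

theorem convex_halfs (H : List ((ℤ × ℤ) × ℤ)) : Convex ℝ (halfs H) := by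
  rw [halfs_eq]
  exact convex_iInter fun h => convex_iInter fun _ => convex_hp _ _

/-- the checker for the area of a piece: the points `X :: l` lie in the piece and form a fan of
area more than `A / (2 * q)`, that is `A < q * fanZ` -/
def pieceZ (v0 v1 : ℤ × ℤ) (l : List (ℤ × ℤ)) (H : List ((ℤ × ℤ) × ℤ)) (A q : ℤ)
    (X : ℤ × ℤ) (m : List (ℤ × ℤ)) : Bool :=
  (X :: m).all (fun x => inZ v0 v1 l x && H.all (fun h => decide (h.2 ≤ dotZ x h.1))) &&
    (decide (m.Pairwise (fun b b' => 0 ≤ dz X b b')) && decide (A < q * fanZ X m))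

theorem piece_lower {v0 v1 : ℤ × ℤ} {l : List (ℤ × ℤ)} {H : List ((ℤ × ℤ) × ℤ)} {A q : ℤ}
    {X : ℤ × ℤ} {m : List (ℤ × ℤ)} (h : pieceZ v0 v1 l H A q X m = true)
    {R : Set (ℝ × ℝ)} (hR : R = poly (cz v0) (cz v1) (l.map cz)) (hconv : Convex ℝ R)
    (hcomp : IsCompact R) :
    (A : ℝ) < q * (2 * volume.real (R ∩ halfs H)) ∨ q < 0 := by
  by_cases hq : q < 0
  · exact Or.inr hq
  left
  simp only [pieceZ, Bool.and_eq_true, List.all_eq_true, decide_eq_true_eq] at h
  obtain ⟨h1, h2, h3⟩ := h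
  have hmem : ∀ x ∈ X :: m, cz x ∈ R ∩ halfs H := by
    intro x hx
    refine ⟨?_, ?_⟩
    · rw [hR]
      exact mem_poly_cz v0 v1 l x (h1 x hx).1
    · intro y hy
      rw [dot_cz]
      exact_mod_cast (h1 x hx).2 y hy
  have hfan := fan_lower (cz X) (m.map cz) (R ∩ halfs H) (hconv.inter (convex_halfs H))
    (hcomp.measurableSet.inter (isClosed_halfs H).measurableSet) (hmem X (by simp))
    (by
      intro b hb
      obtain ⟨x, hx, rfl⟩ := List.mem_map.1 hb
      exact hmem x (List.mem_cons_of_mem _ hx))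
    (by
      rw [List.pairwise_map]
      refine h2.imp ?_
      intro a b hab
      rw [det_cz]
      exact_mod_cast hab)
  rw [fanSum_cz] at hfan
  have hne : volume (R ∩ halfs H) ≠ ⊤ :=
    measure_ne_top_of_subset inter_subset_left hcomp.measure_lt_top.ne
  have h4 : (fanZ X m : ℝ) / 2 ≤ volume.real (R ∩ halfs H) := by
    rw [measureReal_def]
    exact (ENNReal.ofReal_le_iff_le_toReal hne).1 hfan
  have h5 : (A : ℝ) < q * fanZ X m := by exact_mod_cast h3
  refine h5.trans_le ?_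
  have h6 : (0 : ℝ) ≤ q := by
    have : (0 : ℤ) ≤ q := not_lt.1 hq
    exact_mod_cast this
  exact mul_le_mul_of_nonneg_left (by linarith) h6

/-- the data of a sample: direction, sign, two thresholds, three fans -/
structure Sample where
  /-- second coordinate of the direction -/
  s : ℤ
  /-- first threshold -/
  c : ℤ
  /-- second threshold -/
  d : ℤ
  /-- apex of the first fan -/
  X1 : ℤ × ℤ
  /-- first fan -/
  l1 : List (ℤ × ℤ)
  /-- apex of the second fan -/
  X2 : ℤ × ℤ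
  /-- second fan -/
  l2 : List (ℤ × ℤ)
  /-- apex of the third fan -/
  X3 : ℤ × ℤ
  /-- third fan -/
  l3 : List (ℤ × ℤ)

/-- checker for a sample; `A` is twice the area, `M - s` the first coordinate of the direction,
`n` is the second direction (`rot` of the first one or its negative) -/
def checkZ (v0 v1 : ℤ × ℤ) (l : List (ℤ × ℤ)) (A M : ℤ) (S : Sample) (n : ℤ × ℤ) : Bool :=
  pieceZ v0 v1 l [((-(M - S.s), -S.s), -S.c)] A 2 S.X1 S.l1 &&
    pieceZ v0 v1 l [((-n.1, -n.2), -S.d)] A 2 S.X2 S.l2 &&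
    pieceZ v0 v1 l [((M - S.s, S.s), S.c), (n, S.d)] A 4 S.X3 S.l3

theorem neg_hp (w : ℤ × ℤ) (c : ℤ) : halfs [((-w.1, -w.2), -c)] = hn (cz w) (c : ℝ) := by
  ext x
  simp only [halfs, List.mem_singleton, forall_eq, mem_ofPred_eq, hn, dot, cz]
  push_cast
  constructor <;> intro h <;> linarith

theorem two_hp (w v : ℤ × ℤ) (c d : ℤ) :
    halfs [(w, c), (v, d)] = hp (cz w) (c : ℝ) ∩ hp (cz v) (d : ℝ) := by
  ext x
  simp [halfs, hp]

/-- comparison of thresholds -/
theorem lt_of_hn {R : Set (ℝ × ℝ)} (hcomp : IsCompact R) {w : ℝ × ℝ} (hw : w ≠ 0) {c c' : ℝ}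
    (hc : volume.real (R ∩ hp w c) = volume.real R / 2)
    (h : volume.real R / 2 < volume.real (R ∩ hn w c')) : c < c' := by
  by_contra h'
  push Not at h'
  have h1 := F_anti hcomp w h'
  have h2 := split (vol_ne_top hcomp) hcomp.measurableSet hw c'
  linarith

theorem sample_core {R : Set (ℝ × ℝ)} (hcomp : IsCompact R)
    {A : ℝ} (hA : 2 * volume.real R ≤ A) {u n : ℝ × ℝ} (hu : u ≠ 0) (hn0 : n ≠ 0) {c' d' : ℝ}
    (h1 : A < 2 * (2 * volume.real (R ∩ hn u c')))
    (h2 : A < 2 * (2 * volume.real (R ∩ hn n d')))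
    (h3 : A < 4 * (2 * volume.real (R ∩ (hp u c' ∩ hp n d')))) {c d : ℝ}
    (hc : volume.real (R ∩ hp u c) = volume.real R / 2)
    (hd : volume.real (R ∩ hp n d) = volume.real R / 2) :
    volume.real R / 4 < volume.real (R ∩ (hp u c ∩ hp n d)) := by
  have hcc : c < c' := lt_of_hn hcomp hu hc (by linarith)
  have hdd : d < d' := lt_of_hn hcomp hn0 hd (by linarith)
  have h4 : volume.real (R ∩ (hp u c' ∩ hp n d')) ≤ volume.real (R ∩ (hp u c ∩ hp n d)) := by
    refine measureReal_mono (inter_subset_inter_right _ (inter_subset_inter ?_ ?_))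
      (measure_ne_top_of_subset inter_subset_left (vol_ne_top hcomp))
    · exact fun x hx => hcc.le.trans hx
    · exact fun x hx => hdd.le.trans hx
  linarith

theorem hp_neg (w : ℝ × ℝ) (c : ℝ) : hp (-w) (-c) = hn w c := by
  ext x
  simp only [hp, hn, dot, mem_ofPred_eq, Prod.fst_neg, Prod.snd_neg]
  constructor <;> intro h <;> linarith

section

variable {v0 v1 v2 : ℤ × ℤ} {l : List (ℤ × ℤ)} {R : Set (ℝ × ℝ)}
  (hR : R = poly (cz v0) (cz v1) ((v2 :: l).map cz)) (hconv : Convex ℝ R) (hcomp : IsCompact R)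
  (hpos : posZ v0 (v1 :: v2 :: l) = true) {A : ℤ} (hA : fanZ v0 (v1 :: v2 :: l) ≤ A)

include hR hpos hA in
theorem area_le : 2 * volume.real R ≤ (A : ℝ) := by
  have h1 := volume_poly_le (cz v0) (cz v1) (cz v2) (l.map cz)
    (by simpa using fanPos_cz v0 (v1 :: v2 :: l) hpos)
  have h2 : fanSum (cz v0) (cz v1 :: cz v2 :: l.map cz) = (fanZ v0 (v1 :: v2 :: l) : ℝ) / 2 := by
    simpa using fanSum_cz v0 (v1 :: v2 :: l)
  have h3 : poly (cz v0) (cz v1) (cz v2 :: l.map cz) = R := by rw [hR]; simp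
  rw [h2, h3] at h1
  have h4 : (0 : ℝ) ≤ (fanZ v0 (v1 :: v2 :: l) : ℝ) / 2 := by
    rw [← h2]
    exact fanSum_nonneg _ _ (by simpa using fanPos_cz v0 (v1 :: v2 :: l) hpos)
  have h5 : volume.real R ≤ (fanZ v0 (v1 :: v2 :: l) : ℝ) / 2 := by
    rw [measureReal_def]
    exact ENNReal.toReal_le_of_le_ofReal h4 h1
  have h6 : (fanZ v0 (v1 :: v2 :: l) : ℝ) ≤ A := by exact_mod_cast hA
  linarith

include hR hconv hcomp hpos hA in
theorem check_core {M : ℤ} {S : Sample} {n : ℤ × ℤ} (hu : cz (M - S.s, S.s) ≠ 0) (hn0 : cz n ≠ 0)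
    (h : checkZ v0 v1 (v2 :: l) A M S n = true) {c d : ℝ}
    (hc : volume.real (R ∩ hp (cz (M - S.s, S.s)) c) = volume.real R / 2)
    (hd : volume.real (R ∩ hp (cz n) d) = volume.real R / 2) :
    volume.real R / 4 < volume.real (R ∩ (hp (cz (M - S.s, S.s)) c ∩ hp (cz n) d)) := by
  simp only [checkZ, Bool.and_eq_true] at h
  obtain ⟨⟨h1, h2⟩, h3⟩ := h
  have k1 := (piece_lower h1 hR hconv hcomp).resolve_right (by norm_num)
  have k2 := (piece_lower h2 hR hconv hcomp).resolve_right (by norm_num)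
  have k3 := (piece_lower h3 hR hconv hcomp).resolve_right (by norm_num)
  have e1 : halfs [((-(M - S.s), -S.s), -S.c)] = hn (cz (M - S.s, S.s)) (S.c : ℝ) :=
    neg_hp (M - S.s, S.s) S.c
  rw [e1] at k1
  rw [neg_hp] at k2
  rw [two_hp] at k3
  push_cast at k1 k2 k3
  exact sample_core hcomp (area_le hR hpos hA) hu hn0 k1 k2 k3 hc hd

theorem cz_dirn (M s : ℤ) : cz (M - s, s) = dirn M s := by
  simp [cz, dirn]

theorem cz_rot (M s : ℤ) : cz (-s, M - s) = rot (dirn M s) := by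
  simp [cz, dirn, rot]

theorem cz_rot' (M s : ℤ) : cz (s, -(M - s)) = -rot (dirn M s) := by
  simp [cz, dirn, rot]

include hR hconv hcomp hpos hA in
theorem pos_of_check {M : ℤ} (hM : 0 < M) {S : Sample}
    (h : checkZ v0 v1 (v2 :: l) A M S (-S.s, M - S.s) = true) : Pos R (dirn M S.s) := by
  intro c d hc hd
  have hM' : (0 : ℝ) < M := by exact_mod_cast hM
  have hne := dirn_ne_zero hM' (S.s : ℝ)
  have := check_core hR hconv hcomp hpos hA (by rw [cz_dirn]; exact hne)
    (by rw [cz_rot]; exact rot_ne_zero hne) h (c := c) (d := d)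
  rw [cz_dirn, cz_rot] at this
  exact this hc hd

include hR hconv hcomp hpos hA in
theorem neg_of_check {M : ℤ} (hM : 0 < M) {S : Sample}
    (h : checkZ v0 v1 (v2 :: l) A M S (S.s, -(M - S.s)) = true) : Neg R (dirn M S.s) := by
  intro c d hc hd
  have hM' : (0 : ℝ) < M := by exact_mod_cast hM
  have hne := dirn_ne_zero hM' (S.s : ℝ)
  have hfin : ∀ S : Set (ℝ × ℝ), volume (R ∩ S) ≠ ⊤ := fun S =>
    measure_ne_top_of_subset inter_subset_left (vol_ne_top hcomp)
  have := check_core hR hconv hcomp hpos hA (by rw [cz_dirn]; exact hne)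
    (by rw [cz_rot']; exact neg_ne_zero.2 (rot_ne_zero hne)) h (c := c) (d := -d)
  rw [cz_dirn, cz_rot', hp_neg] at this
  have h4 := split (vol_ne_top hcomp) hcomp.measurableSet (rot_ne_zero hne) d
  have h5 := this hc (by linarith)
  have h6 := split (hfin (hp (dirn M S.s) c))
    (hcomp.measurableSet.inter (isClosed_hp _ c).measurableSet) (rot_ne_zero hne) d
  rw [inter_assoc, inter_assoc] at h6
  linarith

end

end Pool.Agent.Q285.Quad
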