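import Pool.Agent.Q285.Quad.Bisect

set_option autoImplicit false

/-!
# Quadrisections from sign changes
-/

namespace Pool.Agent.Q285.Quad

open MeasureTheory Set Filter Topology

theorem dot_self_pos {u : ℝ × ℝ} (hu : u ≠ 0) : 0 < dot u u := by
  rcases ne_zero_iff hu with h | h
  · have := mul_self_pos.2 h
    have h2 := mul_self_nonneg u.2
    unfold dot
    linarith
  · have := mul_self_pos.2 h
    have h2 := mul_self_nonneg u.1
    unfold dot
    linarith

theorem rot_ne_zero {u : ℝ × ℝ} (hu : u ≠ 0) : rot u ≠ 0 := by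
  intro h
  apply hu
  have h1 : -u.2 = 0 := congrArg Prod.fst h
  have h2 : u.1 = 0 := congrArg Prod.snd h
  ext
  · exact h2
  · simpa using h1

/-- the point with given inner products -/
noncomputable def pt (u : ℝ × ℝ) (c d : ℝ) : ℝ × ℝ := (c / dot u u) • u + (d / dot u u) • rot u

theorem dot_pt {u : ℝ × ℝ} (hu : u ≠ 0) (c d : ℝ) : dot (pt u c d) u = c := by
  have h := (dot_self_pos hu).ne'
  have : dot (pt u c d) u = c / dot u u * dot u u := by
    simp only [pt, dot, rot, Prod.fst_add, Prod.snd_add, Prod.smul_fst, Prod.smul_snd, smul_eq_mul]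
    ring
  rw [this, div_mul_cancel₀ _ h]

theorem dot_pt_rot {u : ℝ × ℝ} (hu : u ≠ 0) (c d : ℝ) : dot (pt u c d) (rot u) = d := by
  have h := (dot_self_pos hu).ne'
  have : dot (pt u c d) (rot u) = d / dot u u * dot u u := by
    simp only [pt, dot, rot, Prod.fst_add, Prod.snd_add, Prod.smul_fst, Prod.smul_snd, smul_eq_mul]
    ring
  rw [this, div_mul_cancel₀ _ h]

theorem dot_sub (x y w : ℝ × ℝ) : dot (x - y) w = dot x w - dot y w := by
  simp only [dot, Prod.fst_sub, Prod.snd_sub]
  ring

section body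

variable {R : Set (ℝ × ℝ)} (hconv : Convex ℝ R) (hcomp : IsCompact R)
  (hint : (interior R).Nonempty)

include hconv in
/-- a point whose four quadrants meet `R` in positive area is interior -/
theorem mem_interior_of_quadrants {p u : ℝ × ℝ} (hu : u ≠ 0)
    (h : ∀ s t : ℝ, (s = 1 ∨ s = -1) → (t = 1 ∨ t = -1) →
      0 < volume.real (R ∩ quadrant p u s t)) : p ∈ interior R := by
  by_contra hp
  obtain ⟨f, hf⟩ := geometric_hahn_banach_open_point hconv.interior isOpen_interior hp
  have hD := dot_self_pos hu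
  have hdec : ∀ x : ℝ × ℝ, f x - f p =
      (dot (x - p) u * f u + dot (x - p) (rot u) * f (rot u)) / dot u u := by
    intro x
    have h1 : x - p = (dot (x - p) u / dot u u) • u + (dot (x - p) (rot u) / dot u u) • rot u := by
      have hD' : u.1 * u.1 + u.2 * u.2 ≠ 0 := hD.ne'
      ext
      · simp only [dot, rot, Prod.fst_sub, Prod.snd_sub, Prod.fst_add, Prod.smul_fst, smul_eq_mul]
        rw [div_mul_eq_mul_div, div_mul_eq_mul_div, ← add_div, eq_div_iff hD']
        ring
      · simp only [dot, rot, Prod.fst_sub, Prod.snd_sub, Prod.snd_add, Prod.smul_snd, smul_eq_mul]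
        rw [div_mul_eq_mul_div, div_mul_eq_mul_div, ← add_div, eq_div_iff hD']
        ring
    have h2 : f x - f p = f (x - p) := by rw [map_sub]
    rw [h2]
    conv_lhs => rw [h1]
    rw [map_add, map_smul, map_smul, smul_eq_mul, smul_eq_mul]
    ring
  obtain ⟨s, hs, hs'⟩ : ∃ s : ℝ, (s = 1 ∨ s = -1) ∧ 0 ≤ s * f u := by
    rcases le_total 0 (f u) with h1 | h1
    · exact ⟨1, Or.inl rfl, by linarith⟩
    · exact ⟨-1, Or.inr rfl, by linarith⟩
  obtain ⟨t, ht, ht'⟩ : ∃ t : ℝ, (t = 1 ∨ t = -1) ∧ 0 ≤ t * f (rot u) := by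
    rcases le_total 0 (f (rot u)) with h1 | h1
    · exact ⟨1, Or.inl rfl, by linarith⟩
    · exact ⟨-1, Or.inr rfl, by linarith⟩
  obtain ⟨x, hxi, hx⟩ := exists_interior hconv (h s t hs ht)
  have h1 := hf x hxi
  have h2 := hdec x
  have hss : s * s = 1 := by rcases hs with rfl | rfl <;> norm_num
  have htt : t * t = 1 := by rcases ht with rfl | rfl <;> norm_num
  have h3 : 0 ≤ dot (x - p) u * f u := by
    have : dot (x - p) u * f u = (s * dot (x - p) u) * (s * f u) := by
      calc dot (x - p) u * f u = (s * s) * (dot (x - p) u * f u) := by rw [hss, one_mul]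
        _ = _ := by ring
    rw [this]
    exact mul_nonneg hx.1 hs'
  have h4 : 0 ≤ dot (x - p) (rot u) * f (rot u) := by
    have : dot (x - p) (rot u) * f (rot u) = (t * dot (x - p) (rot u)) * (t * f (rot u)) := by
      calc dot (x - p) (rot u) * f (rot u) = (t * t) * (dot (x - p) (rot u) * f (rot u)) := by
            rw [htt, one_mul]
        _ = _ := by ring
    rw [this]
    exact mul_nonneg hx.2 ht'
  have h5 : 0 ≤ f x - f p := by
    rw [h2]
    exact div_nonneg (add_nonneg h3 h4) hD.le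
  linarith

include hcomp in
theorem volume_eq_of_real {S : Set (ℝ × ℝ)} (hS : S ⊆ R)
    (h : volume.real S = volume.real R / 4) : volume S = volume R / 4 := by
  have h1 := vol_ne_top hcomp
  have h2 : volume S ≠ ⊤ := measure_ne_top_of_subset hS h1
  rw [← ENNReal.toReal_eq_toReal_iff' h2 (ENNReal.div_ne_top h1 (by norm_num)), ENNReal.toReal_div]
  simpa [measureReal_def] using h

include hconv hcomp hint in
theorem quad_of_zero {u : ℝ × ℝ} (hu : u ≠ 0) {c d : ℝ}
    (hc : volume.real (R ∩ hp u c) = volume.real R / 2)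
    (hd : volume.real (R ∩ hp (rot u) d) = volume.real R / 2)
    (hG : volume.real (R ∩ (hp u c ∩ hp (rot u) d)) = volume.real R / 4) :
    IsQuadrisection R {line (pt u c d) u, line (pt u c d) (rot u)} := by
  have hV := vol_pos hcomp hint
  have hfin : ∀ S : Set (ℝ × ℝ), volume (R ∩ S) ≠ ⊤ := fun S =>
    measure_ne_top_of_subset inter_subset_left (vol_ne_top hcomp)
  have hmu : MeasurableSet (hp u c) := (isClosed_hp u c).measurableSet
  have hmu' : MeasurableSet (hn u c) := (isClosed_hn u c).measurableSet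
  have hmr : MeasurableSet (hp (rot u) d) := (isClosed_hp _ d).measurableSet
  have hru := rot_ne_zero hu
  have e1 := split (hfin (hp u c)) (hcomp.measurableSet.inter hmu) hru d
  have e2 := split (hfin (hp (rot u) d)) (hcomp.measurableSet.inter hmr) hu c
  have e3 := split (hfin (hn u c)) (hcomp.measurableSet.inter hmu') hru d
  have e4 := split (vol_ne_top hcomp) hcomp.measurableSet hu c
  rw [inter_assoc, inter_assoc] at e1 e2 e3
  have a12 : R ∩ (hp (rot u) d ∩ hp u c) = R ∩ (hp u c ∩ hp (rot u) d) := by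
    rw [inter_comm (hp (rot u) d)]
  have a13 : R ∩ (hp (rot u) d ∩ hn u c) = R ∩ (hn u c ∩ hp (rot u) d) := by
    rw [inter_comm (hp (rot u) d)]
  rw [a12, a13] at e2
  have q : ∀ s t : ℝ, (s = 1 ∨ s = -1) → (t = 1 ∨ t = -1) →
      volume.real (R ∩ quadrant (pt u c d) u s t) = volume.real R / 4 := by
    have key : ∀ x, x ∈ quadrant (pt u c d) u 1 1 ↔ x ∈ hp u c ∩ hp (rot u) d := by
      intro x
      simp only [quadrant, hp, mem_inter_iff, mem_ofPred_eq, dot_sub, dot_pt hu, dot_pt_rot hu]
      constructor <;> rintro ⟨h1, h2⟩ <;> constructor <;> linarith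
    have key2 : ∀ x, x ∈ quadrant (pt u c d) u 1 (-1) ↔ x ∈ hp u c ∩ hn (rot u) d := by
      intro x
      simp only [quadrant, hp, hn, mem_inter_iff, mem_ofPred_eq, dot_sub, dot_pt hu, dot_pt_rot hu]
      constructor <;> rintro ⟨h1, h2⟩ <;> constructor <;> linarith
    have key3 : ∀ x, x ∈ quadrant (pt u c d) u (-1) 1 ↔ x ∈ hn u c ∩ hp (rot u) d := by
      intro x
      simp only [quadrant, hp, hn, mem_inter_iff, mem_ofPred_eq, dot_sub, dot_pt hu, dot_pt_rot hu]
      constructor <;> rintro ⟨h1, h2⟩ <;> constructor <;> linarith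
    have key4 : ∀ x, x ∈ quadrant (pt u c d) u (-1) (-1) ↔ x ∈ hn u c ∩ hn (rot u) d := by
      intro x
      simp only [quadrant, hn, mem_inter_iff, mem_ofPred_eq, dot_sub, dot_pt hu, dot_pt_rot hu]
      constructor <;> rintro ⟨h1, h2⟩ <;> constructor <;> linarith
    rintro s t (rfl | rfl) (rfl | rfl)
    · rw [Set.ext key, hG]
    · rw [Set.ext key2]
      linarith
    · rw [Set.ext key3]
      linarith
    · rw [Set.ext key4]
      linarith
  refine ⟨pt u c d, u, hu, ?_, rfl, ?_⟩
  · refine mem_interior_of_quadrants hconv hu fun s t hs ht => ?_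
    rw [q s t hs ht]
    linarith
  · intro s t hs ht
    exact volume_eq_of_real hcomp inter_subset_left (q s t hs ht)

end body

/-- the direction family -/
def dirn (M s : ℝ) : ℝ × ℝ := (M - s, s)

theorem continuous_dirn (M : ℝ) : Continuous (dirn M) := by
  unfold dirn
  fun_prop

theorem dirn_ne_zero {M : ℝ} (hM : 0 < M) (s : ℝ) : dirn M s ≠ 0 := by
  intro h
  have h1 : M - s = 0 := congrArg Prod.fst h
  have h2 : s = 0 := congrArg Prod.snd h
  linarith

theorem det_of_line_eq {p p' u u' : ℝ × ℝ} (h : line p u = line p' u') : det u u' = 0 := by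
  have h1 : p ∈ line p' u' := by
    rw [← h]
    exact ⟨0, by simp⟩
  have h2 : p + u ∈ line p' u' := by
    rw [← h]
    exact ⟨1, by simp⟩
  obtain ⟨t1, ht1⟩ := h1
  obtain ⟨t2, ht2⟩ := h2
  have h3 : u = (t2 - t1) • u' := by
    have : u = (p + u) - p := by abel
    rw [this, ht2]
    conv_lhs => rw [ht1]
    rw [sub_smul]
    abel
  rw [h3, det, Prod.smul_fst, Prod.smul_snd, smul_eq_mul, smul_eq_mul]
  ring

theorem pair_inj {M s s' : ℝ} (hM : 0 < M) (hs : 0 < s) (hs1 : s < M) (hs' : 0 < s') (hs1' : s' < M)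
    {p p' : ℝ × ℝ} (h : ({line p (dirn M s), line p (rot (dirn M s))} : Set (Set (ℝ × ℝ))) =
      {line p' (dirn M s'), line p' (rot (dirn M s'))}) : s = s' := by
  have h1 : line p (dirn M s) ∈ ({line p' (dirn M s'), line p' (rot (dirn M s'))} :
      Set (Set (ℝ × ℝ))) := by
    rw [← h]
    simp
  rcases h1 with h1 | h1
  · have h2 := det_of_line_eq h1
    simp only [det, dirn] at h2
    have h3 : M * (s' - s) = 0 := by linarith
    rcases mul_eq_zero.1 h3 with h4 | h4 <;> linarith
  · have h2 := det_of_line_eq h1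
    simp only [det, dirn, rot] at h2
    have h3 : 0 < (M - s) * (M - s') := mul_pos (by linarith) (by linarith)
    have h4 : 0 < s * s' := mul_pos hs hs'
    linarith

/-- `R` has too much area in the first quadrant for the direction `u` -/
def Pos (R : Set (ℝ × ℝ)) (u : ℝ × ℝ) : Prop :=
  ∀ c d : ℝ, volume.real (R ∩ hp u c) = volume.real R / 2 →
    volume.real (R ∩ hp (rot u) d) = volume.real R / 2 →
    volume.real R / 4 < volume.real (R ∩ (hp u c ∩ hp (rot u) d))

/-- `R` has too little area in the first quadrant for the direction `u` -/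
def Neg (R : Set (ℝ × ℝ)) (u : ℝ × ℝ) : Prop :=
  ∀ c d : ℝ, volume.real (R ∩ hp u c) = volume.real R / 2 →
    volume.real (R ∩ hp (rot u) d) = volume.real R / 2 →
    volume.real (R ∩ (hp u c ∩ hp (rot u) d)) < volume.real R / 4

theorem exists_zero {R : Set (ℝ × ℝ)} (hconv : Convex ℝ R) (hcomp : IsCompact R)
    (hint : (interior R).Nonempty) {M : ℝ} (hM : 0 < M) {s s' : ℝ} (hss : s < s')
    (h : (Pos R (dirn M s) ∧ Neg R (dirn M s')) ∨ (Neg R (dirn M s) ∧ Pos R (dirn M s'))) :
    ∃ r p, s < r ∧ r < s' ∧ IsQuadrisection R {line p (dirn M r), line p (rot (dirn M r))} := by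
  choose c hc using fun r : ℝ => exists_bisector hcomp (dirn_ne_zero hM r)
  choose d hd using fun r : ℝ => exists_bisector hcomp (rot_ne_zero (dirn_ne_zero hM r))
  have hrot : Continuous fun r => rot (dirn M r) := by
    unfold rot dirn
    fun_prop
  have hcc : Continuous c := continuous_bisector hconv hcomp hint (dirn M) (continuous_dirn M)
    (dirn_ne_zero hM) c hc
  have hdc : Continuous d := continuous_bisector hconv hcomp hint (fun r => rot (dirn M r)) hrot
    (fun r => rot_ne_zero (dirn_ne_zero hM r)) d hd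
  have hG : Continuous fun r => volume.real (R ∩ (hp (dirn M r) (c r) ∩ hp (rot (dirn M r)) (d r))) :=
    continuous_G hcomp (dirn M) (fun r => rot (dirn M r)) c d (continuous_dirn M) hrot hcc hdc
      (dirn_ne_zero hM) (fun r => rot_ne_zero (dirn_ne_zero hM r))
  have main : ∃ r, s < r ∧ r < s' ∧
      volume.real (R ∩ (hp (dirn M r) (c r) ∩ hp (rot (dirn M r)) (d r))) = volume.real R / 4 := by
    rcases h with ⟨h1, h2⟩ | ⟨h1, h2⟩
    · have h3 := h1 _ _ (hc s) (hd s)
      have h4 := h2 _ _ (hc s') (hd s')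
      obtain ⟨r, hr, hr'⟩ := intermediate_value_Ioo' hss.le hG.continuousOn ⟨h4, h3⟩
      exact ⟨r, hr.1, hr.2, hr'⟩
    · have h3 := h1 _ _ (hc s) (hd s)
      have h4 := h2 _ _ (hc s') (hd s')
      obtain ⟨r, hr, hr'⟩ := intermediate_value_Ioo hss.le hG.continuousOn ⟨h3, h4⟩
      exact ⟨r, hr.1, hr.2, hr'⟩
  obtain ⟨r, hr1, hr2, hr⟩ := main
  exact ⟨r, pt (dirn M r) (c r) (d r), hr1, hr2,
    quad_of_zero hconv hcomp hint (dirn_ne_zero hM r) (hc r) (hd r) hr⟩

/-- counting quadrisections by sign changes -/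
theorem count_le {R : Set (ℝ × ℝ)} (hconv : Convex ℝ R) (hcomp : IsCompact R)
    (hint : (interior R).Nonempty) {M : ℝ} (hM : 0 < M) (N : ℕ) (σ : ℕ → ℝ)
    (h0 : 0 < σ 0) (hN : σ N < M) (hmono : ∀ i < N, σ i < σ (i + 1))
    (h : ∀ i < N, (Pos R (dirn M (σ i)) ∧ Neg R (dirn M (σ (i + 1)))) ∨
      (Neg R (dirn M (σ i)) ∧ Pos R (dirn M (σ (i + 1))))) :
    (N : ℕ∞) ≤ quadCount R := by
  have hz : ∀ i : Fin N, ∃ r p, σ i < r ∧ r < σ (i + 1) ∧
      IsQuadrisection R {line p (dirn M r), line p (rot (dirn M r))} := fun i =>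
    exists_zero hconv hcomp hint hM (hmono i i.2) (h i i.2)
  choose r p hr1 hr2 hr using hz
  have hmono' : ∀ i j : ℕ, i ≤ j → j ≤ N → σ i ≤ σ j := by
    intro i j hij
    induction j, hij using Nat.le_induction with
    | base => intro _; exact le_rfl
    | succ j hij ih =>
      intro hj
      exact (ih (by omega)).trans (hmono j (by omega)).le
  have hr0 : ∀ i, 0 < r i := fun i =>
    h0.trans_le ((hmono' 0 i (by omega) i.2.le).trans (hr1 i).le)
  have hrM : ∀ i, r i < M := fun i =>
    ((hr2 i).le.trans (hmono' (i + 1) N i.2 le_rfl)).trans_lt hN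
  have hinj : Function.Injective fun i : Fin N =>
      ({line (p i) (dirn M (r i)), line (p i) (rot (dirn M (r i)))} : Set (Set (ℝ × ℝ))) := by
    intro i j hij
    have h1 : r i = r j := pair_inj hM (hr0 i) (hrM i) (hr0 j) (hrM j) hij
    rcases lt_trichotomy i j with h2 | h2 | h2
    · exfalso
      have h3 : σ (i + 1) ≤ σ j := hmono' _ _ h2 j.2.le
      have h4 := hr2 i
      have h5 := hr1 j
      linarith
    · exact h2
    · exfalso
      have h3 : σ (j + 1) ≤ σ i := hmono' _ _ h2 i.2.le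
      have h4 := hr2 j
      have h5 := hr1 i
      linarith
  have h1 : (range fun i : Fin N =>
      ({line (p i) (dirn M (r i)), line (p i) (rot (dirn M (r i)))} : Set (Set (ℝ × ℝ)))) ⊆
      {L | IsQuadrisection R L} := by
    rintro _ ⟨i, rfl⟩
    exact hr i
  refine le_trans ?_ (encard_le_encard h1)
  rw [← image_univ, hinj.encard_image, encard_univ]
  simp

end Pool.Agent.Q285.Quad
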