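import Pool.Agent.Q285.Quad.Inf

set_option autoImplicit false

/-!
# The square with its corners cut: vertices
-/

namespace Pool.Agent.Q285.Quad

open MeasureTheory Set

/-- the vertices -/
noncomputable def cv (k : ℕ) (a : ℝ) : Fin k ⊕ Fin 6 → ℝ × ℝ
  | .inl i => w (i / (k - 1))
  | .inr 0 => (-1 + a, 1)
  | .inr 1 => (-1, 1 - a)
  | .inr 2 => (-1, -1 + a)
  | .inr 3 => (-1 + a, -1)
  | .inr 4 => (1 - a, -1)
  | .inr 5 => (1, -1 + a)

/-- the exposing functionals -/
noncomputable def cf (k : ℕ) : Fin k ⊕ Fin 6 → ℝ × ℝ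
  | .inl i => if (i : ℕ) = 0 then (1, 2 * (k - 1)) else
      if (i : ℕ) = k - 1 then (2 * (k - 1), 1) else
        (2 / (1 - (i : ℝ) / (k - 1)), 2 / ((i : ℝ) / (k - 1)))
  | .inr 0 => (-1, 2)
  | .inr 1 => (-2, 1)
  | .inr 2 => (-2, -1)
  | .inr 3 => (-1, -2)
  | .inr 4 => (1, -2)
  | .inr 5 => (2, -1)

theorem exposed_rr {k : ℕ} {a : ℝ} (h0 : 0 < a) (h1 : a ≤ 1 / 2) (i j : Fin 6) (hij : j ≠ i) :
    dot (cv k a (.inr j)) (cf k (.inr i)) < dot (cv k a (.inr i)) (cf k (.inr i)) := by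
  fin_cases i <;> fin_cases j <;> first
    | exact absurd rfl hij
    | (simp only [cv, cf, dot]; linarith)
    | (simp [cv, cf, dot]; linarith)

theorem exposed_rl {k : ℕ} (hk : 3 ≤ k) {a : ℝ} (h0 : 0 < a) (h1 : a ≤ 1 / 2) (i : Fin 6)
    (j : Fin k) :
    dot (cv k a (.inl j)) (cf k (.inr i)) < dot (cv k a (.inr i)) (cf k (.inr i)) := by
  obtain ⟨hx1, hx2, hx3, hx4⟩ := w_mem_box (tau_mem hk j).1 (tau_mem hk j).2
  have e : cv k a (.inl j) = w (j / (k - 1)) := rfl
  rw [e]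
  set x := w (j / (k - 1))
  fin_cases i <;> simp only [cv, cf, dot, Fin.zero_eta, Fin.mk_one, Fin.reduceFinMk] <;> linarith

theorem exposed_l0 {k : ℕ} (hk : 3 ≤ k) {a : ℝ} (h0 : 0 < a) (h1 : a ≤ 1 / 2)
    (j : Fin k ⊕ Fin 6) (hj : j ≠ .inl ⟨0, by omega⟩) :
    dot (cv k a j) (1, 2 * (k - 1)) < dot (w 0) (1, 2 * (k - 1)) := by
  have hK : (2 : ℝ) ≤ k - 1 := by
    have : (3 : ℝ) ≤ k := by exact_mod_cast hk
    linarith
  rw [w_zero]
  set K : ℝ := (k : ℝ) - 1 with hKdef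
  have hKa : 0 < K * a := by positivity
  have hKa' : K * a ≤ K * (1 / 2) := mul_le_mul_of_nonneg_left h1 (by linarith)
  match j, hj with
  | .inl j, hj =>
    have hj0 : (j : ℕ) ≠ 0 := fun h => hj (by congr 1; exact Fin.ext h)
    have hj1 : (1 : ℝ) ≤ (j : ℕ) := by exact_mod_cast Nat.one_le_iff_ne_zero.2 hj0
    have hτ := tau_mem hk j
    simp only [cv, w, dot]
    rw [← hKdef] at hτ ⊢
    set τ : ℝ := (j : ℕ) / K with hτdef
    have hKτ : 1 ≤ K * τ := by
      rw [hτdef, mul_div_cancel₀ _ (by linarith)]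
      exact hj1
    have hτ0 : 0 < τ := by
      by_contra h
      push Not at h
      have : K * τ ≤ 0 := mul_nonpos_of_nonneg_of_nonpos (by linarith) h
      linarith
    have h2 : 0 ≤ τ * (K * τ - 1) := mul_nonneg hτ0.le (by linarith)
    have h3 : 0 < τ * τ := mul_pos hτ0 hτ0
    nlinarith
  | .inr 0, _ => simp only [cv, dot]; linarith
  | .inr 1, _ => simp only [cv, dot]; linarith
  | .inr 2, _ => simp only [cv, dot]; linarith
  | .inr 3, _ => simp only [cv, dot]; linarith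
  | .inr 4, _ => simp only [cv, dot]; linarith
  | .inr 5, _ => simp only [cv, dot]; linarith

theorem exposed_l1 {k : ℕ} (hk : 3 ≤ k) {a : ℝ} (h0 : 0 < a) (h1 : a ≤ 1 / 2)
    (j : Fin k ⊕ Fin 6) (hj : j ≠ .inl ⟨k - 1, by omega⟩) :
    dot (cv k a j) (2 * (k - 1), 1) < dot (w 1) (2 * (k - 1), 1) := by
  have hK : (2 : ℝ) ≤ k - 1 := by
    have : (3 : ℝ) ≤ k := by exact_mod_cast hk
    linarith
  rw [w_one]
  set K : ℝ := (k : ℝ) - 1 with hKdef
  have hKa : 0 < K * a := by positivity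
  have hKa' : K * a ≤ K * (1 / 2) := mul_le_mul_of_nonneg_left h1 (by linarith)
  match j, hj with
  | .inl j, hj =>
    have hj0 : (j : ℕ) ≠ k - 1 := fun h => hj (by congr 1; exact Fin.ext h)
    have hj1 : ((j : ℕ) : ℝ) + 1 ≤ K := by
      have h2 : (j : ℕ) + 2 ≤ k := by omega
      have h3 : ((j : ℕ) : ℝ) + 2 ≤ k := by exact_mod_cast h2
      linarith
    have hτ := tau_mem hk j
    simp only [cv, w, dot]
    rw [← hKdef] at hτ ⊢
    set τ : ℝ := (j : ℕ) / K with hτdef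
    have hKτ : 1 ≤ K * (1 - τ) := by
      have : K * τ = (j : ℕ) := by rw [hτdef, mul_div_cancel₀ _ (by linarith)]
      linarith
    have hτ0 : 0 < 1 - τ := by
      by_contra h
      push Not at h
      have : K * (1 - τ) ≤ 0 := mul_nonpos_of_nonneg_of_nonpos (by linarith) h
      linarith
    have h2 : 0 ≤ (1 - τ) * (K * (1 - τ) - 1) := mul_nonneg hτ0.le (by linarith)
    have h3 : 0 < (1 - τ) * (1 - τ) := mul_pos hτ0 hτ0
    nlinarith
  | .inr 0, _ => simp only [cv, dot]; linarith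
  | .inr 1, _ => simp only [cv, dot]; linarith
  | .inr 2, _ => simp only [cv, dot]; linarith
  | .inr 3, _ => simp only [cv, dot]; linarith
  | .inr 4, _ => simp only [cv, dot]; linarith
  | .inr 5, _ => simp only [cv, dot]; linarith

theorem exposed_li {k : ℕ} (hk : 3 ≤ k) {a : ℝ} (h0 : 0 < a) (h1 : a ≤ 1 / 2)
    (i : Fin k) (hi0 : (i : ℕ) ≠ 0) (hi1 : (i : ℕ) ≠ k - 1)
    (j : Fin k ⊕ Fin 6) (hj : j ≠ .inl i) :
    dot (cv k a j) (2 / (1 - (i : ℝ) / (k - 1)), 2 / ((i : ℝ) / (k - 1))) <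
      dot (w (i / (k - 1))) (2 / (1 - (i : ℝ) / (k - 1)), 2 / ((i : ℝ) / (k - 1))) := by
  have hK : (2 : ℝ) ≤ k - 1 := by
    have : (3 : ℝ) ≤ k := by exact_mod_cast hk
    linarith
  set K : ℝ := (k : ℝ) - 1 with hKdef
  set τ : ℝ := (i : ℕ) / K with hτdef
  have hτ0 : 0 < τ := by
    have : (0 : ℝ) < (i : ℕ) := by exact_mod_cast Nat.pos_of_ne_zero hi0
    exact div_pos this (by linarith)
  have hτ1 : 0 < 1 - τ := by
    have h2 : (i : ℕ) + 2 ≤ k := by omega
    have h3 : ((i : ℕ) : ℝ) + 2 ≤ k := by exact_mod_cast h2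
    have : τ < 1 := by
      rw [hτdef, div_lt_one (by linarith)]
      linarith
    linarith
  set P : ℝ := 2 / (1 - τ) with hP
  set Q : ℝ := 2 / τ with hQ
  have hP1 : P * (1 - τ) = 2 := div_mul_cancel₀ _ hτ1.ne'
  have hQ1 : Q * τ = 2 := div_mul_cancel₀ _ hτ0.ne'
  have hP2 : 2 < P := by
    rw [hP, lt_div_iff₀ hτ1]
    linarith
  have hQ2 : 2 < Q := by
    rw [hQ, lt_div_iff₀ hτ0]
    linarith
  have hval : dot (w τ) (P, Q) = P + Q - 1 := by
    have : dot (w τ) (P, Q) = P + Q - (P * (1 - τ)) * (1 - τ) / 2 - (Q * τ) * τ / 2 := by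
      simp only [dot, w]
      ring
    rw [this, hP1, hQ1]
    ring
  rw [hval]
  have hPa : 0 < P * a := by positivity
  have hQa : 0 < Q * a := by positivity
  have hPa' : P * a ≤ P * (1 / 2) := mul_le_mul_of_nonneg_left h1 (by linarith)
  have hQa' : Q * a ≤ Q * (1 / 2) := mul_le_mul_of_nonneg_left h1 (by linarith)
  match j, hj with
  | .inl j, hj =>
    have hj0 : j ≠ i := fun h => hj (by rw [h])
    simp only [cv]
    rw [← hKdef]
    set σ : ℝ := (j : ℕ) / K with hσdef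
    have hne : σ - τ ≠ 0 := by
      intro h
      have h2 : σ = τ := by linarith
      rw [hσdef, hτdef, div_left_inj' (by linarith)] at h2
      exact hj0 (Fin.ext (by exact_mod_cast h2))
    have hpos : 0 < (σ - τ) ^ 2 := by positivity
    have h2 : dot (w σ) (P, Q) = P + Q - P * (1 - σ) ^ 2 / 2 - Q * σ ^ 2 / 2 := by
      simp only [dot, w]
      ring
    rw [h2]
    have h3 : P * (1 - σ) ^ 2 = 2 * (1 - τ) + 4 * (τ - σ) + P * (σ - τ) ^ 2 := by
      have : P * (1 - σ) ^ 2 = (P * (1 - τ)) * (1 - τ) + 2 * (P * (1 - τ)) * (τ - σ) +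
          P * (σ - τ) ^ 2 := by ring
      rw [this, hP1]
      ring
    have h4 : Q * σ ^ 2 = 2 * τ - 4 * (τ - σ) + Q * (σ - τ) ^ 2 := by
      have : Q * σ ^ 2 = (Q * τ) * τ - 2 * (Q * τ) * (τ - σ) + Q * (σ - τ) ^ 2 := by ring
      rw [this, hQ1]
      ring
    have h5 : 0 < P * (σ - τ) ^ 2 := by positivity
    have h6 : 0 < Q * (σ - τ) ^ 2 := by positivity
    rw [h3, h4]
    linarith
  | .inr 0, _ => simp only [cv, dot]; linarith
  | .inr 1, _ => simp only [cv, dot]; linarith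
  | .inr 2, _ => simp only [cv, dot]; linarith
  | .inr 3, _ => simp only [cv, dot]; linarith
  | .inr 4, _ => simp only [cv, dot]; linarith
  | .inr 5, _ => simp only [cv, dot]; linarith

theorem exposed {k : ℕ} (hk : 3 ≤ k) {a : ℝ} (h0 : 0 < a) (h1 : a ≤ 1 / 2)
    (i j : Fin k ⊕ Fin 6) (hij : j ≠ i) :
    dot (cv k a j) (cf k i) < dot (cv k a i) (cf k i) := by
  rcases i with i | i
  · have hv : cv k a (.inl i) = w (i / (k - 1)) := rfl
    have hf : cf k (.inl i) = if (i : ℕ) = 0 then ((1, 2 * ((k : ℝ) - 1)) : ℝ × ℝ) else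
      if (i : ℕ) = k - 1 then (2 * ((k : ℝ) - 1), 1) else
        (2 / (1 - (i : ℝ) / (k - 1)), 2 / ((i : ℝ) / (k - 1))) := rfl
    rw [hv, hf]
    split_ifs with h2 h3
    · have e1 : i = ⟨0, by omega⟩ := Fin.ext h2
      have e2 : ((i : ℕ) : ℝ) / ((k : ℝ) - 1) = 0 := by rw [h2]; simp
      rw [e2]
      refine exposed_l0 hk h0 h1 j ?_
      rw [← e1]
      exact hij
    · have e1 : i = ⟨k - 1, by omega⟩ := Fin.ext h3
      have e2 : ((i : ℕ) : ℝ) / ((k : ℝ) - 1) = 1 := by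
        have h4 : ((k - 1 : ℕ) : ℝ) = (k : ℝ) - 1 := by
          rw [Nat.cast_sub (by omega)]
          simp
        have h5 : (3 : ℝ) ≤ k := by exact_mod_cast hk
        rw [h3, h4, div_self (by linarith)]
      rw [e2]
      refine exposed_l1 hk h0 h1 j ?_
      rw [← e1]
      exact hij
    · exact exposed_li hk h0 h1 i h2 h3 j hij
  · rcases j with j | j
    · exact exposed_rl hk h0 h1 i j
    · exact exposed_rr h0 h1 i j (fun h => hij (by rw [h]))

/-- the polygon -/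
noncomputable def cutSq (k : ℕ) (a : ℝ) : Set (ℝ × ℝ) := convexHull ℝ (range (cv k a))

theorem cv_mem {k : ℕ} {a : ℝ} (i : Fin k ⊕ Fin 6) : cv k a i ∈ cutSq k a :=
  subset_convexHull ℝ _ ⟨i, rfl⟩

theorem cv_sq {k : ℕ} (hk : 3 ≤ k) {a : ℝ} (h0 : 0 < a) (h1 : a ≤ 1 / 2) (i : Fin k ⊕ Fin 6) :
    cv k a i ∈ sq := by
  match i with
  | .inl i =>
    obtain ⟨hx1, hx2, hx3, hx4⟩ := w_mem_box (tau_mem hk i).1 (tau_mem hk i).2
    simp only [cv, sq, mem_ofPred_eq]
    refine ⟨by linarith, by linarith, by linarith, by linarith⟩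
  | .inr 0 => simp only [cv, sq, mem_ofPred_eq]; refine ⟨?_, ?_, ?_, ?_⟩ <;> linarith
  | .inr 1 => simp only [cv, sq, mem_ofPred_eq]; refine ⟨?_, ?_, ?_, ?_⟩ <;> linarith
  | .inr 2 => simp only [cv, sq, mem_ofPred_eq]; refine ⟨?_, ?_, ?_, ?_⟩ <;> linarith
  | .inr 3 => simp only [cv, sq, mem_ofPred_eq]; refine ⟨?_, ?_, ?_, ?_⟩ <;> linarith
  | .inr 4 => simp only [cv, sq, mem_ofPred_eq]; refine ⟨?_, ?_, ?_, ?_⟩ <;> linarith
  | .inr 5 => simp only [cv, sq, mem_ofPred_eq]; refine ⟨?_, ?_, ?_, ?_⟩ <;> linarith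

theorem good_cut {k : ℕ} (hk : 3 ≤ k) {a : ℝ} (h0 : 0 < a) (h1 : a ≤ 1 / 2) :
    Good (cutSq k a) := by
  have hconv : Convex ℝ (cutSq k a) := convex_convexHull ℝ _
  have m0 : ((-1 + a, 1) : ℝ × ℝ) ∈ cutSq k a := cv_mem (.inr 0)
  have m1 : ((-1, 1 - a) : ℝ × ℝ) ∈ cutSq k a := cv_mem (.inr 1)
  have m2 : ((-1, -1 + a) : ℝ × ℝ) ∈ cutSq k a := cv_mem (.inr 2)
  have m3 : ((-1 + a, -1) : ℝ × ℝ) ∈ cutSq k a := cv_mem (.inr 3)
  have m4 : ((1 - a, -1) : ℝ × ℝ) ∈ cutSq k a := cv_mem (.inr 4)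
  have m5 : ((1, -1 + a) : ℝ × ℝ) ∈ cutSq k a := cv_mem (.inr 5)
  have m6 : ((1 / 2, 1) : ℝ × ℝ) ∈ cutSq k a := by
    have := cv_mem (k := k) (a := a) (.inl ⟨0, by omega⟩)
    have e : cv k a (.inl ⟨0, by omega⟩) = (1 / 2, 1) := by
      simp only [cv]
      rw [← w_zero]
      congr 1
      simp
    rwa [e] at this
  have m7 : ((1, 1 / 2) : ℝ × ℝ) ∈ cutSq k a := by
    have := cv_mem (k := k) (a := a) (.inl ⟨k - 1, by omega⟩)
    have e : cv k a (.inl ⟨k - 1, by omega⟩) = (1, 1 / 2) := by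
      simp only [cv]
      rw [← w_one]
      congr 1
      have h4 : ((k - 1 : ℕ) : ℝ) = (k : ℝ) - 1 := by
        rw [Nat.cast_sub (by omega)]
        simp
      have h5 : (3 : ℝ) ≤ k := by exact_mod_cast hk
      rw [h4, div_self (by linarith)]
    rwa [e] at this
  refine ⟨hconv, compact_hull _, ?_, ?_⟩
  · refine convexHull_min ?_ convex_sq
    rintro _ ⟨i, rfl⟩
    exact cv_sq hk h0 h1 i
  · rintro x y (⟨rfl | rfl, rfl | rfl⟩ | ⟨rfl | rfl, rfl | rfl⟩)
    · exact m7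
    · exact seg_snd hconv m5 m7 (by linarith) (by norm_num)
    · exact seg_snd hconv m2 m1 (by linarith) (by linarith)
    · exact seg_snd hconv m2 m1 (by linarith) (by linarith)
    · exact m6
    · exact seg_fst hconv m3 m4 (by linarith) (by linarith)
    · exact seg_fst hconv m0 m6 (by linarith) (by norm_num)
    · exact seg_fst hconv m3 m4 (by linarith) (by linarith)

theorem T1_sub_cut {k : ℕ} (hk : 3 ≤ k) {a : ℝ} (h0 : 0 < a) (h1 : a ≤ 1 / 2) :
    T1 k ⊆ cutSq k a := by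
  have h := good_cut hk h0 h1
  refine convexHull_min ?_ h.conv
  rintro _ ⟨i, rfl⟩
  match i with
  | none =>
    exact rect_mem h.conv (h.pt (-(1 / 2)) (-1) (by norm_num)) (h.pt (-(1 / 2)) 1 (by norm_num))
          (h.pt (1 / 2) (-1) (by norm_num)) (h.pt (1 / 2) 1 (by norm_num)) (by norm_num [chain])
          (by norm_num [chain]) (by norm_num [chain]) (by norm_num [chain])
  | some i => exact cv_mem (.inl i)

theorem below {k : ℕ} (hk : 3 ≤ k) {a : ℝ} (h0 : 0 < a) (h1 : a ≤ 1 / 2) :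
    ∀ x ∈ cutSq k a, ∃ y ∈ T1 k, x.1 ≤ y.1 ∧ x.2 ≤ y.2 := by
  have hD : Convex ℝ {x : ℝ × ℝ | ∃ y ∈ T1 k, x.1 ≤ y.1 ∧ x.2 ≤ y.2} := by
    rintro x ⟨x', hx', hx1, hx2⟩ y ⟨y', hy', hy1, hy2⟩ s t hs ht hst
    refine ⟨s • x' + t • y', convex_T1 k hx' hy' hs ht hst, ?_, ?_⟩
    · simp only [Prod.fst_add, Prod.smul_fst, smul_eq_mul]
      exact add_le_add (mul_le_mul_of_nonneg_left hx1 hs) (mul_le_mul_of_nonneg_left hy1 ht)
    · simp only [Prod.snd_add, Prod.smul_snd, smul_eq_mul]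
      exact add_le_add (mul_le_mul_of_nonneg_left hx2 hs) (mul_le_mul_of_nonneg_left hy2 ht)
  have hsub : cutSq k a ⊆ {x : ℝ × ℝ | ∃ y ∈ T1 k, x.1 ≤ y.1 ∧ x.2 ≤ y.2} := by
    refine convexHull_min ?_ hD
    rintro _ ⟨i, rfl⟩
    have k0 := w0_mem hk
    have k1 := w1_mem hk
    match i with
    | .inl i => exact ⟨_, subset_convexHull ℝ _ ⟨some i, rfl⟩, le_rfl, le_rfl⟩
    | .inr 0 => exact ⟨_, k0, by simp only [cv]; linarith, by simp only [cv]; linarith⟩
    | .inr 1 => exact ⟨_, k0, by simp only [cv]; linarith, by simp only [cv]; linarith⟩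
    | .inr 2 => exact ⟨_, k0, by simp only [cv]; linarith, by simp only [cv]; linarith⟩
    | .inr 3 => exact ⟨_, k0, by simp only [cv]; linarith, by simp only [cv]; linarith⟩
    | .inr 4 => exact ⟨_, k1, by simp only [cv]; linarith, by simp only [cv]; linarith⟩
    | .inr 5 => exact ⟨_, k1, by simp only [cv]; linarith, by simp only [cv]; linarith⟩
  exact hsub

theorem cut_le {k : ℕ} {a α β γ : ℝ} (h : ∀ i, α * (cv k a i).1 + β * (cv k a i).2 ≤ γ) :
    ∀ x ∈ cutSq k a, α * x.1 + β * x.2 ≤ γ := by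
  have : cutSq k a ⊆ {x : ℝ × ℝ | α * x.1 + β * x.2 ≤ γ} := by
    refine convexHull_min ?_ (convex_le _ _ _)
    rintro _ ⟨i, rfl⟩
    exact h i
  exact this

theorem cut_infinite {k : ℕ} (hk : 3 ≤ k) :
    ∃ R : Set (ℝ × ℝ), IsConvexGon (k + 6) R ∧ quadCount R = ⊤ := by
  set κ := volume.real (T1 k) with hκ
  have hκ1 := T1_upper hk
  have hκ2 := T1_lower hk
  rw [← hκ] at hκ1 hκ2
  set a := Real.sqrt (2 * (1 / 4 - κ)) with ha
  have ha2 : a ^ 2 = 2 * (1 / 4 - κ) := by
    rw [ha, Real.sq_sqrt (by linarith)]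
  have h0 : 0 < a := by
    rw [ha]
    exact Real.sqrt_pos.2 (by linarith)
  have h1 : a ≤ 1 / 2 := by
    by_contra h
    push Not at h
    nlinarith
  have hκa : κ = 1 / 4 - a ^ 2 / 2 := by linarith
  have hg := good_cut hk h0 h1
  set R := cutSq k a with hR
  have hvol : 0 < volume.real R := by
    have : volume.real (T1 k) ≤ volume.real R :=
      measureReal_mono (T1_sub_cut hk h0 h1) (vol_ne_top hg.comp)
    linarith
  have hint : (interior R).Nonempty := interior_of_vol hg.conv hvol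
  have m0 : ((-1 + a, 1) : ℝ × ℝ) ∈ R := cv_mem (.inr 0)
  have m1 : ((-1, 1 - a) : ℝ × ℝ) ∈ R := cv_mem (.inr 1)
  have m2 : ((-1, -1 + a) : ℝ × ℝ) ∈ R := cv_mem (.inr 2)
  have m3 : ((-1 + a, -1) : ℝ × ℝ) ∈ R := cv_mem (.inr 3)
  have m4 : ((1 - a, -1) : ℝ × ℝ) ∈ R := cv_mem (.inr 4)
  have m5 : ((1, -1 + a) : ℝ × ℝ) ∈ R := cv_mem (.inr 5)
  have hb : ∀ i : Fin k, w (i / (k - 1)) ∈ box := fun i =>
    w_mem_box (tau_mem hk i).1 (tau_mem hk i).2
  refine ⟨R, ?_, ?_⟩
  · have := gon_of_functionals (cv k a) (cf k) (exposed hk h0 h1) hint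
    have hc : Fintype.card (Fin k ⊕ Fin 6) = k + 6 := by simp
    rw [hc] at this
    exact this
  · refine infinite_quads hg hint (κ := κ) ?_ ?_ ?_ ?_
    · rw [box_part hk (T1_sub_cut hk h0 h1) (below hk h0 h1)]
    · rw [hκa]
      refine corner hg.rot h0 h1 ?_ ?_ ?_
      · intro x hx
        have hx' : rot x ∈ R := hx
        have := cut_le (k := k) (a := a) (α := -1) (β := 1) (γ := 2 - a) ?_ _ hx'
        · simp only [rot] at this
          linarith
        · intro i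
          match i with
          | .inl i =>
            obtain ⟨hx1, hx2, hx3, hx4⟩ := hb i
            simp only [cv]
            linarith
          | .inr 0 => simp only [cv]; linarith
          | .inr 1 => simp only [cv]; linarith
          | .inr 2 => simp only [cv]; linarith
          | .inr 3 => simp only [cv]; linarith
          | .inr 4 => simp only [cv]; linarith
          | .inr 5 => simp only [cv]; linarith
      · exact m1
      · show ((-(1 - a), 1) : ℝ × ℝ) ∈ R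
        rw [neg_sub, sub_eq_add_neg, add_comm]
        exact m0
    · rw [hκa]
      refine corner hg.rot.rot h0 h1 ?_ ?_ ?_
      · intro x hx
        have hx' : rot (rot x) ∈ R := hx
        have := cut_le (k := k) (a := a) (α := -1) (β := -1) (γ := 2 - a) ?_ _ hx'
        · simp only [rot] at this
          linarith
        · intro i
          match i with
          | .inl i =>
            obtain ⟨hx1, hx2, hx3, hx4⟩ := hb i
            simp only [cv]
            linarith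
          | .inr 0 => simp only [cv]; linarith
          | .inr 1 => simp only [cv]; linarith
          | .inr 2 => simp only [cv]; linarith
          | .inr 3 => simp only [cv]; linarith
          | .inr 4 => simp only [cv]; linarith
          | .inr 5 => simp only [cv]; linarith
      · show ((-(1 - a), -1) : ℝ × ℝ) ∈ R
        rw [neg_sub, sub_eq_add_neg, add_comm]
        exact m3
      · show ((-1, -(1 - a)) : ℝ × ℝ) ∈ R
        rw [neg_sub, sub_eq_add_neg, add_comm]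
        exact m2
    · rw [hκa]
      refine corner hg.rot.rot.rot h0 h1 ?_ ?_ ?_
      · intro x hx
        have hx' : rot (rot (rot x)) ∈ R := hx
        have := cut_le (k := k) (a := a) (α := 1) (β := -1) (γ := 2 - a) ?_ _ hx'
        · simp only [rot] at this
          linarith
        · intro i
          match i with
          | .inl i =>
            obtain ⟨hx1, hx2, hx3, hx4⟩ := hb i
            simp only [cv]
            linarith
          | .inr 0 => simp only [cv]; linarith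
          | .inr 1 => simp only [cv]; linarith
          | .inr 2 => simp only [cv]; linarith
          | .inr 3 => simp only [cv]; linarith
          | .inr 4 => simp only [cv]; linarith
          | .inr 5 => simp only [cv]; linarith
      · have e : rot (rot (rot ((1 - a, 1) : ℝ × ℝ))) = (1, -1 + a) := by
          simp only [rot]
          ext <;> simp <;> ring
        show rot (rot (rot ((1 - a, 1) : ℝ × ℝ))) ∈ R
        rw [e]
        exact m5
      · have e : rot (rot (rot ((1, 1 - a) : ℝ × ℝ))) = (1 - a, -1) := by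
          simp only [rot]
          ext <;> simp
        show rot (rot (rot ((1, 1 - a) : ℝ × ℝ))) ∈ R
        rw [e]
        exact m4

end Pool.Agent.Q285.Quad
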