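import Mathlib

set_option autoImplicit false

/-!
# Quadrisections of convex polygons: the definitions
-/

namespace Pool.Agent.Q285.Quad

open MeasureTheory

/-- The Euclidean inner product of the plane. -/
def dot (x y : ℝ × ℝ) : ℝ := x.1 * y.1 + x.2 * y.2

/-- Rotation by a right angle. -/
def rot (x : ℝ × ℝ) : ℝ × ℝ := (-x.2, x.1)

/-- The line through `p` with direction `u`. -/
def line (p u : ℝ × ℝ) : Set (ℝ × ℝ) := {x | ∃ t : ℝ, x = p + t • u}

/-- For signs `s, t` the four closed quadrants bounded by the perpendicular lines `line p u` and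
`line p (rot u)`. -/
def quadrant (p u : ℝ × ℝ) (s t : ℝ) : Set (ℝ × ℝ) :=
  {x | 0 ≤ s * dot (x - p) u ∧ 0 ≤ t * dot (x - p) (rot u)}

/-- `L` is the unordered pair of lines of a quadrisection of `R`. -/
def IsQuadrisection (R : Set (ℝ × ℝ)) (L : Set (Set (ℝ × ℝ))) : Prop :=
  ∃ p u : ℝ × ℝ, u ≠ 0 ∧ p ∈ interior R ∧ L = {line p u, line p (rot u)} ∧
    ∀ s t : ℝ, (s = 1 ∨ s = -1) → (t = 1 ∨ t = -1) →
      volume (R ∩ quadrant p u s t) = volume R / 4

/-- The number of quadrisections of `R`. -/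
noncomputable def quadCount (R : Set (ℝ × ℝ)) : ℕ∞ := {L | IsQuadrisection R L}.encard

/-- `R` is a convex polygon with exactly `m` vertices. -/
def IsConvexGon (m : ℕ) (R : Set (ℝ × ℝ)) : Prop :=
  ∃ V : Finset (ℝ × ℝ), V.card = m ∧ R = convexHull ℝ (V : Set (ℝ × ℝ)) ∧
    (interior R).Nonempty ∧ ∀ v ∈ V, v ∉ convexHull ℝ ((V : Set (ℝ × ℝ)) \ {v})

end Pool.Agent.Q285.Quad
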