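import Pool.Agent.Q285.Quad.Check

set_option autoImplicit false

/-!
# Polygons with integer vertices
-/

namespace Pool.Agent.Q285.Quad

open MeasureTheory Set

theorem dot_add_smul (x y w : ℝ × ℝ) (s t : ℝ) :
    dot (s • x + t • y) w = s * dot x w + t * dot y w := by
  simp only [dot, Prod.fst_add, Prod.snd_add, Prod.smul_fst, Prod.smul_snd, smul_eq_mul]
  ring

/-- points exposed by linear functionals are the vertices of a convex polygon -/
theorem gon_of_functionals {ι : Type*} [Fintype ι] (v f : ι → ℝ × ℝ)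
    (h : ∀ i j, j ≠ i → dot (v j) (f i) < dot (v i) (f i))
    (hint : (interior (convexHull ℝ (range v))).Nonempty) :
    IsConvexGon (Fintype.card ι) (convexHull ℝ (range v)) := by
  classical
  have hinj : Function.Injective v := by
    intro i j hij
    by_contra hne
    have := h i j fun h => hne h.symm
    rw [hij] at this
    exact lt_irrefl _ this
  refine ⟨Finset.univ.image v, ?_, ?_, hint, ?_⟩
  · rw [Finset.card_image_of_injective _ hinj, Finset.card_univ]
  · simp
  · intro x hx
    obtain ⟨i, -, rfl⟩ := Finset.mem_image.1 hx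
    intro hmem
    have hconv : Convex ℝ {x : ℝ × ℝ | dot x (f i) < dot (v i) (f i)} := by
      intro x hx y hy s t hs ht hst
      have hx' : dot x (f i) < dot (v i) (f i) := hx
      have hy' : dot y (f i) < dot (v i) (f i) := hy
      show dot (s • x + t • y) (f i) < dot (v i) (f i)
      rw [dot_add_smul]
      have h1 : s * dot x (f i) ≤ s * dot (v i) (f i) := mul_le_mul_of_nonneg_left hx'.le hs
      have h2 : t * dot y (f i) ≤ t * dot (v i) (f i) := mul_le_mul_of_nonneg_left hy'.le ht
      have h3 : s * dot (v i) (f i) + t * dot (v i) (f i) = dot (v i) (f i) := by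
        rw [← add_mul, hst, one_mul]
      rcases hs.eq_or_lt with h4 | h4
      · have h5 : t = 1 := by linarith
        subst h5
        rw [← h4] at h3 ⊢
        linarith
      · have h5 : s * dot x (f i) < s * dot (v i) (f i) := mul_lt_mul_of_pos_left hx' h4
        linarith
    have hsub : ((Finset.univ.image v : Finset (ℝ × ℝ)) : Set (ℝ × ℝ)) \ {v i} ⊆
        {x : ℝ × ℝ | dot x (f i) < dot (v i) (f i)} := by
      rintro y ⟨hy, hyi⟩
      simp only [Finset.coe_image, Finset.coe_univ, image_univ, mem_range] at hy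
      obtain ⟨j, rfl⟩ := hy
      exact h i j fun hji => hyi (by rw [hji]; rfl)
    have h6 : dot (v i) (f i) < dot (v i) (f i) := convexHull_min hsub hconv hmem
    exact lt_irrefl _ h6

theorem compact_hull {ι : Type*} [Finite ι] (v : ι → ℝ × ℝ) :
    IsCompact (convexHull ℝ (range v)) := (finite_range v).isCompact_convexHull ℝ

theorem interior_of_vol {R : Set (ℝ × ℝ)} (hconv : Convex ℝ R) (h : 0 < volume.real R) :
    (interior R).Nonempty := by
  obtain ⟨x, hx, -⟩ := exists_interior hconv (S := univ) (by rwa [inter_univ])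
  exact ⟨x, hx⟩

instance : Inhabited Sample := ⟨⟨0, 0, 0, (0, 0), [], (0, 0), [], (0, 0), []⟩⟩

/-- the check of the sample number `i` -/
def sampleOK (v0 v1 : ℤ × ℤ) (l : List (ℤ × ℤ)) (A M : ℤ) (L : List Sample) (i : ℕ) : Bool :=
  checkZ v0 v1 l A M (L.getD i default)
    (if i % 2 = 0 then (-(L.getD i default).s, M - (L.getD i default).s)
      else ((L.getD i default).s, -(M - (L.getD i default).s)))

/-- all the checks for a polygon -/
def gonOK (v0 v1 v2 : ℤ × ℤ) (l : List (ℤ × ℤ)) (F : List (ℤ × ℤ)) (m N : ℕ) (A M : ℤ)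
    (L : List Sample) : Prop :=
  (v0 :: v1 :: v2 :: l).length = m ∧ 0 < M ∧ posZ v0 (v1 :: v2 :: l) = true ∧
    fanZ v0 (v1 :: v2 :: l) ≤ A ∧
    (∀ v ∈ v0 :: v1 :: v2 :: l, inZ v0 v1 (v2 :: l) v = true) ∧
    (∀ i < m, ∀ j < m, j ≠ i →
      dotZ ((v0 :: v1 :: v2 :: l).getD j (0, 0)) (F.getD i (0, 0)) <
        dotZ ((v0 :: v1 :: v2 :: l).getD i (0, 0)) (F.getD i (0, 0))) ∧
    0 < (L.getD 0 default).s ∧ (L.getD N default).s < M ∧
    (∀ i < N, (L.getD i default).s < (L.getD (i + 1) default).s) ∧
    (∀ i < N + 1, sampleOK v0 v1 (v2 :: l) A M L i = true)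

theorem gon_of_check {v0 v1 v2 : ℤ × ℤ} {l F : List (ℤ × ℤ)} {m N : ℕ} {A M : ℤ}
    {L : List Sample} (h : gonOK v0 v1 v2 l F m N A M L) :
    ∃ R : Set (ℝ × ℝ), IsConvexGon m R ∧ (N : ℕ∞) ≤ quadCount R := by
  obtain ⟨hm, hM, hpos, hA, hin, hF, h0, hN, hmono, hS⟩ := h
  set P := v0 :: v1 :: v2 :: l with hP
  have hr : range (fun i : Fin m => cz (P.getD i (0, 0))) = {v | v ∈ P.map cz} := by
    ext x
    simp only [mem_range, mem_ofPred_eq, List.mem_map]
    constructor
    · rintro ⟨i, rfl⟩
      have hi : (i : ℕ) < P.length := by rw [hm]; exact i.2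
      refine ⟨P[(i : ℕ)], List.getElem_mem hi, ?_⟩
      rw [List.getD_eq_getElem _ _ hi]
    · rintro ⟨y, hy, rfl⟩
      obtain ⟨i, hi, rfl⟩ := List.mem_iff_getElem.1 hy
      refine ⟨⟨i, by rw [← hm]; exact hi⟩, ?_⟩
      simp only
      rw [List.getD_eq_getElem _ _ hi]
  have hhull : convexHull ℝ {v | v ∈ P.map cz} = poly (cz v0) (cz v1) ((v2 :: l).map cz) := by
    have := hull_eq_poly (cz v0) (cz v1) (cz v2) (l.map cz)
      (by simpa using fanPos_cz v0 (v1 :: v2 :: l) hpos) (by
        intro v hv
        have hv' : v ∈ P.map cz := by simpa [hP] using hv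
        obtain ⟨x, hx, rfl⟩ := List.mem_map.1 hv'
        simpa using mem_poly_cz v0 v1 (v2 :: l) x (hin x hx))
    simpa [hP] using this
  set R := convexHull ℝ (range (fun i : Fin m => cz (P.getD i (0, 0)))) with hRdef
  have hR : R = poly (cz v0) (cz v1) ((v2 :: l).map cz) := by rw [hRdef, hr, hhull]
  have hconv : Convex ℝ R := convex_convexHull ℝ _
  have hcomp : IsCompact R := compact_hull _
  have hvol : 0 < volume.real R := by
    have h1 : pieceZ v0 v1 (v2 :: l) [] 0 1 v0 [v1, v2] = true := by
      simp only [pieceZ, Bool.and_eq_true, List.all_eq_true, decide_eq_true_eq]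
      have hp1 : 0 < dz v0 v1 v2 := by
        have := hpos
        simp only [posZ, Bool.and_eq_true, decide_eq_true_eq] at this
        exact this.1
      refine ⟨?_, ?_, ?_⟩
      · intro x hx
        refine ⟨hin x ?_, by simp⟩
        simp only [List.mem_cons, List.not_mem_nil, or_false] at hx
        rcases hx with rfl | rfl | rfl <;> simp [hP]
      · simp [hp1.le]
      · simp [fanZ, hp1]
    have h2 := (piece_lower h1 hR hconv hcomp).resolve_right (by norm_num)
    have h3 : halfs [] = univ := by ext x; simp [halfs]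
    rw [h3, inter_univ] at h2
    push_cast at h2
    linarith
  have hint : (interior R).Nonempty := interior_of_vol hconv hvol
  refine ⟨R, ?_, ?_⟩
  · have := gon_of_functionals (fun i : Fin m => cz (P.getD i (0, 0)))
      (fun i : Fin m => cz (F.getD i (0, 0))) (by
        intro i j hij
        simp only [dot_cz]
        exact_mod_cast hF i i.2 j j.2 (fun h => hij (Fin.ext h))) hint
    rw [Fintype.card_fin] at this
    exact this
  · refine count_le hconv hcomp hint (M := (M : ℝ)) (by exact_mod_cast hM) N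
      (fun i => ((L.getD i default).s : ℝ)) (by exact_mod_cast h0) (by exact_mod_cast hN)
      (fun i hi => by exact_mod_cast hmono i hi) ?_
    have key : ∀ i < N + 1, (i % 2 = 0 → Pos R (dirn M ((L.getD i default).s : ℝ))) ∧
        (i % 2 = 1 → Neg R (dirn M ((L.getD i default).s : ℝ))) := by
      intro i hi
      have h1 := hS i hi
      unfold sampleOK at h1
      refine ⟨fun h2 => ?_, fun h2 => ?_⟩
      · rw [if_pos h2] at h1
        exact pos_of_check hR hconv hcomp hpos hA hM h1
      · rw [if_neg (by omega)] at h1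
        exact neg_of_check hR hconv hcomp hpos hA hM h1
    intro i hi
    rcases Nat.mod_two_eq_zero_or_one i with h1 | h1
    · left
      exact ⟨(key i (by omega)).1 h1, (key (i + 1) (by omega)).2 (by omega)⟩
    · right
      exact ⟨(key i (by omega)).2 h1, (key (i + 1) (by omega)).1 (by omega)⟩

end Pool.Agent.Q285.Quad
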