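import Pool.Agent.Q285.Quad.Square

set_option autoImplicit false

/-!
# Infinitely many quadrisections
-/

namespace Pool.Agent.Q285.Quad

open MeasureTheory Set

theorem rot_quad {R : Set (ℝ × ℝ)} (u : ℝ × ℝ) (c d : ℝ) :
    rot ⁻¹' (R ∩ (hn u c ∩ hp (rot u) d)) = rot ⁻¹' R ∩ (hp u d ∩ hp (rot u) (-c)) := by
  ext x
  simp only [mem_preimage, mem_inter_iff, hn, hp, mem_ofPred_eq]
  have h1 : dot (rot x) u = -dot x (rot u) := by
    simp only [dot, rot]
    ring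
  have h2 : dot (rot x) (rot u) = dot x u := by
    simp only [dot, rot]
    ring
  rw [h1, h2]
  constructor
  · rintro ⟨h3, h4, h5⟩
    exact ⟨h3, h5, by linarith⟩
  · rintro ⟨h3, h4, h5⟩
    exact ⟨h3, by linarith, h4⟩

theorem rot_quad2 {R : Set (ℝ × ℝ)} (u : ℝ × ℝ) :
    rot ⁻¹' (R ∩ (hn u 0 ∩ hn (rot u) 0)) = rot ⁻¹' R ∩ (hn u 0 ∩ hp (rot u) 0) := by
  ext x
  simp only [mem_preimage, mem_inter_iff, hn, hp, mem_ofPred_eq]
  have h1 : dot (rot x) u = -dot x (rot u) := by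
    simp only [dot, rot]
    ring
  have h2 : dot (rot x) (rot u) = dot x u := by
    simp only [dot, rot]
    ring
  rw [h1, h2]
  constructor
  · rintro ⟨h3, h4, h5⟩
    exact ⟨h3, h5, by linarith⟩
  · rintro ⟨h3, h4, h5⟩
    exact ⟨h3, by linarith, h4⟩

theorem rot_quad3 {R : Set (ℝ × ℝ)} (u : ℝ × ℝ) :
    rot ⁻¹' (R ∩ (hp u 0 ∩ hn (rot u) 0)) = rot ⁻¹' R ∩ (hn u 0 ∩ hn (rot u) 0) := by
  ext x
  simp only [mem_preimage, mem_inter_iff, hn, hp, mem_ofPred_eq]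
  have h1 : dot (rot x) u = -dot x (rot u) := by
    simp only [dot, rot]
    ring
  have h2 : dot (rot x) (rot u) = dot x u := by
    simp only [dot, rot]
    ring
  rw [h1, h2]
  constructor
  · rintro ⟨h3, h4, h5⟩
    exact ⟨h3, h5, by linarith⟩
  · rintro ⟨h3, h4, h5⟩
    exact ⟨h3, by linarith, h4⟩

theorem quad_of_good {R : Set (ℝ × ℝ)} (h : Good R) (hint : (interior R).Nonempty) {κ : ℝ}
    (h0 : volume.real (R ∩ box) = κ) (h1 : volume.real (rot ⁻¹' R ∩ box) = κ)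
    (h2 : volume.real (rot ⁻¹' (rot ⁻¹' R) ∩ box) = κ)
    (h3 : volume.real (rot ⁻¹' (rot ⁻¹' (rot ⁻¹' R)) ∩ box) = κ) {s : ℝ} (hs0 : 0 < s)
    (hs1 : s < 1 / 5) :
    IsQuadrisection R {line (pt (dirn 1 s) 0 0) (dirn 1 s),
      line (pt (dirn 1 s) 0 0) (rot (dirn 1 s))} := by
  set u := dirn 1 s with hu
  have hu0 : u ≠ 0 := dirn_ne_zero one_pos s
  set β := volume.real ((sq ∩ q1 s) \ box) + κ with hβ
  have e0 : volume.real (R ∩ (hp u 0 ∩ hp (rot u) 0)) = β := by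
    have := quarter h hs0 hs1
    rw [h0] at this
    exact this
  have e1 : volume.real (R ∩ (hn u 0 ∩ hp (rot u) 0)) = β := by
    rw [← volumeReal_rot, rot_quad, neg_zero]
    have := quarter h.rot hs0 hs1
    rw [h1] at this
    exact this
  have e2 : volume.real (R ∩ (hn u 0 ∩ hn (rot u) 0)) = β := by
    rw [← volumeReal_rot, rot_quad2, ← volumeReal_rot, rot_quad, neg_zero]
    have := quarter h.rot.rot hs0 hs1
    rw [h2] at this
    exact this
  have e3 : volume.real (R ∩ (hp u 0 ∩ hn (rot u) 0)) = β := by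
    rw [← volumeReal_rot, rot_quad3, ← volumeReal_rot, rot_quad2, ← volumeReal_rot, rot_quad,
      neg_zero]
    have := quarter h.rot.rot.rot hs0 hs1
    rw [h3] at this
    exact this
  have hfin : ∀ S : Set (ℝ × ℝ), volume (R ∩ S) ≠ ⊤ := fun S =>
    measure_ne_top_of_subset inter_subset_left (vol_ne_top h.comp)
  have hru := rot_ne_zero hu0
  have s1 := split (hfin (hp u 0)) (h.comp.measurableSet.inter (isClosed_hp u 0).measurableSet) hru 0
  have s2 := split (hfin (hn u 0)) (h.comp.measurableSet.inter (isClosed_hn u 0).measurableSet) hru 0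
  have s3 := split (hfin (hp (rot u) 0))
    (h.comp.measurableSet.inter (isClosed_hp (rot u) 0).measurableSet) hu0 0
  have s4 := split (vol_ne_top h.comp) h.comp.measurableSet hu0 0
  rw [inter_assoc, inter_assoc] at s1 s2 s3
  rw [inter_comm (hp (rot u) 0) (hp u 0), inter_comm (hp (rot u) 0) (hn u 0)] at s3
  have hV : volume.real R = 4 * β := by linarith
  refine quad_of_zero h.conv h.comp hint hu0 ?_ ?_ ?_
  · linarith
  · linarith
  · linarith

theorem infinite_quads {R : Set (ℝ × ℝ)} (h : Good R) (hint : (interior R).Nonempty) {κ : ℝ}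
    (h0 : volume.real (R ∩ box) = κ) (h1 : volume.real (rot ⁻¹' R ∩ box) = κ)
    (h2 : volume.real (rot ⁻¹' (rot ⁻¹' R) ∩ box) = κ)
    (h3 : volume.real (rot ⁻¹' (rot ⁻¹' (rot ⁻¹' R)) ∩ box) = κ) : quadCount R = ⊤ := by
  have hinf : {L | IsQuadrisection R L}.Infinite := by
    refine infinite_of_injOn_mapsTo (s := Ioo (0 : ℝ) (1 / 5))
      (f := fun s : ℝ => ({line (pt (dirn 1 s) 0 0) (dirn 1 s),
        line (pt (dirn 1 s) 0 0) (rot (dirn 1 s))} : Set (Set (ℝ × ℝ)))) ?_ ?_ ?_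
    · intro s hs t ht hst
      have e : ∀ r : ℝ, pt (dirn 1 r) 0 0 = 0 := fun r => by simp [pt]
      simp only [e] at hst
      exact pair_inj one_pos hs.1 (by linarith [hs.2]) ht.1 (by linarith [ht.2]) hst
    · intro s hs
      exact quad_of_good h hint h0 h1 h2 h3 hs.1 hs.2
    · exact Ioo_infinite (by norm_num)
  exact hinf.encard_eq

/-- the chain of vertices in the last corner -/
noncomputable def w (τ : ℝ) : ℝ × ℝ := (1 - (1 - τ) ^ 2 / 2, 1 - τ ^ 2 / 2)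

/-- the points of the chain and the inner corner of the box -/
noncomputable def chain (k : ℕ) : Option (Fin k) → ℝ × ℝ
  | none => (1 / 2, 1 / 2)
  | some i => w (i / (k - 1))

/-- the part of the polygon in the box -/
noncomputable def T1 (k : ℕ) : Set (ℝ × ℝ) := convexHull ℝ (range (chain k))

theorem convex_T1 (k : ℕ) : Convex ℝ (T1 k) := convex_convexHull ℝ _

theorem tau_mem {k : ℕ} (hk : 3 ≤ k) (i : Fin k) :
    0 ≤ (i : ℝ) / (k - 1) ∧ (i : ℝ) / (k - 1) ≤ 1 := by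
  have h1 : (3 : ℝ) ≤ k := by exact_mod_cast hk
  have h2 : ((i : ℕ) : ℝ) + 1 ≤ k := by exact_mod_cast i.2
  constructor
  · exact div_nonneg (Nat.cast_nonneg _) (by linarith)
  · rw [div_le_one (by linarith)]
    linarith

theorem w_mem_box {τ : ℝ} (h0 : 0 ≤ τ) (h1 : τ ≤ 1) : w τ ∈ box := by
  simp only [w, box, mem_ofPred_eq]
  refine ⟨?_, ?_, ?_, ?_⟩ <;> nlinarith

theorem w_sum {τ : ℝ} : (w τ).1 + (w τ).2 ≤ 2 - 1 / 4 := by
  simp only [w]
  nlinarith [sq_nonneg (τ - 1 / 2)]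

theorem T1_sub_box {k : ℕ} (hk : 3 ≤ k) : T1 k ⊆ box := by
  refine convexHull_min ?_ convex_box
  rintro _ ⟨i, rfl⟩
  match i with
  | none => norm_num [chain, box]
  | some i => exact w_mem_box (tau_mem hk i).1 (tau_mem hk i).2

theorem convex_le (α β γ : ℝ) : Convex ℝ {x : ℝ × ℝ | α * x.1 + β * x.2 ≤ γ} := by
  intro x hx y hy s t hs ht hst
  have hx' : α * x.1 + β * x.2 ≤ γ := hx
  have hy' : α * y.1 + β * y.2 ≤ γ := hy
  show α * (s • x + t • y).1 + β * (s • x + t • y).2 ≤ γ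
  have h1 : α * (s • x + t • y).1 + β * (s • x + t • y).2 =
      s * (α * x.1 + β * x.2) + t * (α * y.1 + β * y.2) := by
    simp only [Prod.fst_add, Prod.snd_add, Prod.smul_fst, Prod.smul_snd, smul_eq_mul]
    ring
  have h2 : γ = s * γ + t * γ := by rw [← add_mul, hst, one_mul]
  rw [h1, h2]
  exact add_le_add (mul_le_mul_of_nonneg_left hx' hs) (mul_le_mul_of_nonneg_left hy' ht)

theorem T1_sum {k : ℕ} {x : ℝ × ℝ} (hx : x ∈ T1 k) : x.1 + x.2 ≤ 2 - 1 / 4 := by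
  have h : T1 k ⊆ {x : ℝ × ℝ | 1 * x.1 + 1 * x.2 ≤ 2 - 1 / 4} := by
    refine convexHull_min ?_ (convex_le _ _ _)
    rintro _ ⟨i, rfl⟩
    match i with
    | none => norm_num [chain]
    | some i =>
      have := @w_sum (i / (k - 1))
      simp only [mem_ofPred_eq, one_mul]
      exact this
  have := h hx
  simp only [mem_ofPred_eq, one_mul] at this
  exact this

theorem w_zero : w 0 = (1 / 2, 1) := by
  simp only [w]
  norm_num

theorem w_one : w 1 = (1, 1 / 2) := by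
  simp only [w]
  norm_num

theorem c0_mem (k : ℕ) : ((1 / 2, 1 / 2) : ℝ × ℝ) ∈ T1 k :=
  subset_convexHull ℝ _ ⟨none, rfl⟩

theorem w0_mem {k : ℕ} (hk : 3 ≤ k) : ((1 / 2, 1) : ℝ × ℝ) ∈ T1 k := by
  refine subset_convexHull ℝ _ ⟨some ⟨0, by omega⟩, ?_⟩
  simp only [chain]
  rw [← w_zero]
  congr 1
  simp

theorem w1_mem {k : ℕ} (hk : 3 ≤ k) : ((1, 1 / 2) : ℝ × ℝ) ∈ T1 k := by
  refine subset_convexHull ℝ _ ⟨some ⟨k - 1, by omega⟩, ?_⟩
  simp only [chain]
  rw [← w_one]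
  congr 1
  have h1 : ((k - 1 : ℕ) : ℝ) = (k : ℝ) - 1 := by
    rw [Nat.cast_sub (by omega)]
    simp
  have h2 : (3 : ℝ) ≤ k := by exact_mod_cast hk
  rw [h1, div_self (by linarith)]

theorem proj1 {k : ℕ} (hk : 3 ≤ k) {x : ℝ × ℝ} (hx : x ∈ T1 k) : ((1 / 2, x.2) : ℝ × ℝ) ∈ T1 k := by
  have h : Convex ℝ {x : ℝ × ℝ | ((1 / 2, x.2) : ℝ × ℝ) ∈ T1 k} := by
    intro x hx y hy s t hs ht hst
    have := convex_T1 k (show ((1 / 2, x.2) : ℝ × ℝ) ∈ T1 k from hx)
      (show ((1 / 2, y.2) : ℝ × ℝ) ∈ T1 k from hy) hs ht hst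
    show ((1 / 2, (s • x + t • y).2) : ℝ × ℝ) ∈ T1 k
    convert this using 1
    ext
    · simp only [Prod.fst_add, Prod.smul_fst, smul_eq_mul]
      rw [← add_mul, hst, one_mul]
    · simp
  have h2 : T1 k ⊆ {x : ℝ × ℝ | ((1 / 2, x.2) : ℝ × ℝ) ∈ T1 k} := by
    refine convexHull_min ?_ h
    rintro _ ⟨i, rfl⟩
    have h3 : chain k i ∈ box := T1_sub_box hk (subset_convexHull ℝ _ ⟨i, rfl⟩)
    exact seg_snd (convex_T1 k) (c0_mem k) (w0_mem hk) h3.2.2.1 h3.2.2.2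
  exact h2 hx

theorem proj2 {k : ℕ} (hk : 3 ≤ k) {x : ℝ × ℝ} (hx : x ∈ T1 k) : ((x.1, 1 / 2) : ℝ × ℝ) ∈ T1 k := by
  have h : Convex ℝ {x : ℝ × ℝ | ((x.1, 1 / 2) : ℝ × ℝ) ∈ T1 k} := by
    intro x hx y hy s t hs ht hst
    have := convex_T1 k (show ((x.1, 1 / 2) : ℝ × ℝ) ∈ T1 k from hx)
      (show ((y.1, 1 / 2) : ℝ × ℝ) ∈ T1 k from hy) hs ht hst
    show (((s • x + t • y).1, 1 / 2) : ℝ × ℝ) ∈ T1 k
    convert this using 1
    ext
    · simp
    · simp only [Prod.snd_add, Prod.smul_snd, smul_eq_mul]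
      rw [← add_mul, hst, one_mul]
  have h2 : T1 k ⊆ {x : ℝ × ℝ | ((x.1, 1 / 2) : ℝ × ℝ) ∈ T1 k} := by
    refine convexHull_min ?_ h
    rintro _ ⟨i, rfl⟩
    have h3 : chain k i ∈ box := T1_sub_box hk (subset_convexHull ℝ _ ⟨i, rfl⟩)
    exact seg_fst (convex_T1 k) (c0_mem k) (w1_mem hk) h3.1 h3.2.1
  exact h2 hx

/-- the part in the box of a set below `T1` -/
theorem box_part {k : ℕ} (hk : 3 ≤ k) {R : Set (ℝ × ℝ)} (hT : T1 k ⊆ R)
    (hD : ∀ x ∈ R, ∃ y ∈ T1 k, x.1 ≤ y.1 ∧ x.2 ≤ y.2) : R ∩ box = T1 k := by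
  apply Subset.antisymm
  · rintro x ⟨hx, hb⟩
    obtain ⟨y, hy, h1, h2⟩ := hD x hx
    exact rect_mem (convex_T1 k) (c0_mem k) (proj1 hk hy) (proj2 hk hy) hy hb.1 h1 hb.2.2.1 h2
  · exact fun x hx => ⟨hT hx, T1_sub_box hk hx⟩

theorem compact_T1 (k : ℕ) : IsCompact (T1 k) := (finite_range _).isCompact_convexHull ℝ

theorem T1_upper {k : ℕ} (hk : 3 ≤ k) : volume.real (T1 k) < 1 / 4 := by
  have := upper (T1_sub_box hk) (a := 1 / 4) (by norm_num) (by norm_num) fun x hx => T1_sum hx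
  norm_num at this ⊢
  linarith

theorem T1_lower {k : ℕ} (hk : 3 ≤ k) : 1 / 8 ≤ volume.real (T1 k) := by
  have hfan := fan_lower ((1 / 2, 1 / 2) : ℝ × ℝ) [(1, 1 / 2), (1 / 2, 1)]
    (T1 k) (convex_T1 k) (compact_T1 k).measurableSet (c0_mem k) (by
      intro b hb
      simp only [List.mem_cons, List.not_mem_nil, or_false] at hb
      rcases hb with rfl | rfl
      · exact w1_mem hk
      · exact w0_mem hk) (by
      simp only [det, List.pairwise_cons, List.mem_cons, List.not_mem_nil, or_false,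
        forall_eq, Prod.mk_sub_mk, List.Pairwise.nil, and_true,
        IsEmpty.forall_iff, implies_true]
      norm_num)
  have hne : volume (T1 k) ≠ ⊤ := (compact_T1 k).measure_lt_top.ne
  have h2 := (ENNReal.ofReal_le_iff_le_toReal hne).1 hfan
  rw [← measureReal_def] at h2
  refine le_trans (le_of_eq ?_) h2
  simp only [fanSum, det, Prod.mk_sub_mk]
  norm_num

end Pool.Agent.Q285.Quad
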