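import Pool.Agent.Q285.Quad.Gon

set_option autoImplicit false

/-!
# A square with its corners cut off
-/

namespace Pool.Agent.Q285.Quad

open MeasureTheory Set

/-- the square -/
def sq : Set (ℝ × ℝ) := {x | -1 ≤ x.1 ∧ x.1 ≤ 1 ∧ -1 ≤ x.2 ∧ x.2 ≤ 1}

/-- the corner box -/
def box : Set (ℝ × ℝ) := {x | 1 / 2 ≤ x.1 ∧ x.1 ≤ 1 ∧ 1 / 2 ≤ x.2 ∧ x.2 ≤ 1}

theorem box_eq : box = Icc (1 / 2 : ℝ) 1 ×ˢ Icc (1 / 2 : ℝ) 1 := by
  ext ⟨a, b⟩
  simp only [box, mem_ofPred_eq, mem_prod, mem_Icc]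
  tauto

theorem sq_eq : sq = Icc (-1 : ℝ) 1 ×ˢ Icc (-1 : ℝ) 1 := by
  ext ⟨a, b⟩
  simp only [sq, mem_ofPred_eq, mem_prod, mem_Icc]
  tauto

theorem measurable_box : MeasurableSet box := by
  rw [box_eq]
  exact measurableSet_Icc.prod measurableSet_Icc

theorem convex_box : Convex ℝ box := by
  rw [box_eq]
  exact (convex_Icc _ _).prod (convex_Icc _ _)

theorem convex_sq : Convex ℝ sq := by
  rw [sq_eq]
  exact (convex_Icc _ _).prod (convex_Icc _ _)

theorem volume_box : volume box = ENNReal.ofReal (1 / 4) := by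
  rw [box_eq, Measure.volume_eq_prod, Measure.prod_prod, Real.volume_Icc,
    ← ENNReal.ofReal_mul (by norm_num)]
  norm_num

theorem seg_fst {S : Set (ℝ × ℝ)} (hS : Convex ℝ S) {a b c x : ℝ} (ha : (a, c) ∈ S)
    (hb : (b, c) ∈ S) (h1 : a ≤ x) (h2 : x ≤ b) : (x, c) ∈ S := by
  have h : Convex ℝ {x : ℝ | (x, c) ∈ S} := by
    intro x hx y hy s t hs ht hst
    have := hS hx hy hs ht hst
    have h3 : s • (x, c) + t • (y, c) = (s • x + t • y, c) := by
      ext
      · simp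
      · simp only [Prod.snd_add, Prod.smul_snd, smul_eq_mul]
        rw [← add_mul, hst, one_mul]
    rw [h3] at this
    exact this
  exact h.ordConnected.out ha hb ⟨h1, h2⟩

theorem seg_snd {S : Set (ℝ × ℝ)} (hS : Convex ℝ S) {a b c x : ℝ} (ha : (c, a) ∈ S)
    (hb : (c, b) ∈ S) (h1 : a ≤ x) (h2 : x ≤ b) : (c, x) ∈ S := by
  have h : Convex ℝ {x : ℝ | (c, x) ∈ S} := by
    intro x hx y hy s t hs ht hst
    have := hS hx hy hs ht hst
    have h3 : s • (c, x) + t • (c, y) = (c, s • x + t • y) := by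
      ext
      · simp only [Prod.fst_add, Prod.smul_fst, smul_eq_mul]
        rw [← add_mul, hst, one_mul]
      · simp
    rw [h3] at this
    exact this
  exact h.ordConnected.out ha hb ⟨h1, h2⟩

theorem rect_mem {S : Set (ℝ × ℝ)} (hS : Convex ℝ S) {a b c d : ℝ} (h1 : (a, c) ∈ S)
    (h2 : (a, d) ∈ S) (h3 : (b, c) ∈ S) (h4 : (b, d) ∈ S) {x : ℝ × ℝ} (hx1 : a ≤ x.1)
    (hx2 : x.1 ≤ b) (hx3 : c ≤ x.2) (hx4 : x.2 ≤ d) : x ∈ S := by
  have h5 : (x.1, c) ∈ S := seg_fst hS h1 h3 hx1 hx2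
  have h6 : (x.1, d) ∈ S := seg_fst hS h2 h4 hx1 hx2
  exact seg_snd hS h5 h6 hx3 hx4

/-- a convex body between the plus shape and the square -/
structure Good (S : Set (ℝ × ℝ)) : Prop where
  conv : Convex ℝ S
  comp : IsCompact S
  sub : S ⊆ sq
  pt : ∀ x y : ℝ, ((x = 1 ∨ x = -1) ∧ (y = 1 / 2 ∨ y = -(1 / 2))) ∨
    ((x = 1 / 2 ∨ x = -(1 / 2)) ∧ (y = 1 ∨ y = -1)) → (x, y) ∈ S

/-- the rotation as a linear map -/
noncomputable def rotL : (ℝ × ℝ) →ₗ[ℝ] (ℝ × ℝ) :=
  Matrix.toLin (Module.Basis.finTwoProd ℝ) (Module.Basis.finTwoProd ℝ) !![0, -1; 1, 0]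

theorem rotL_apply (x : ℝ × ℝ) : rotL x = rot x := by
  rw [rotL, Matrix.toLin_finTwoProd_apply]
  ext <;> simp [rot]

theorem volume_rot (S : Set (ℝ × ℝ)) : volume (rot ⁻¹' S) = volume S := by
  have h : rot = rotL := by
    ext x : 1
    exact (rotL_apply x).symm
  have hdet : LinearMap.det rotL = 1 := by
    rw [rotL, LinearMap.det_toLin, Matrix.det_fin_two_of]
    norm_num
  rw [h, Measure.addHaar_preimage_linearMap volume (by rw [hdet]; exact one_ne_zero), hdet]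
  simp

theorem volumeReal_rot (S : Set (ℝ × ℝ)) : volume.real (rot ⁻¹' S) = volume.real S := by
  rw [measureReal_def, volume_rot, measureReal_def]

theorem continuous_rot : Continuous rot := by
  unfold rot
  fun_prop

theorem Good.rot {S : Set (ℝ × ℝ)} (h : Good S) : Good (rot ⁻¹' S) where
  conv := by
    intro x hx y hy s t hs ht hst
    have h1 := h.conv (show Quad.rot x ∈ S from hx) (show Quad.rot y ∈ S from hy) hs ht hst
    show Quad.rot (s • x + t • y) ∈ S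
    convert h1 using 1
    ext <;> simp [Quad.rot] <;> ring
  comp := by
    have hcl : IsClosed (Quad.rot ⁻¹' S) := h.comp.isClosed.preimage continuous_rot
    have hsub : Quad.rot ⁻¹' S ⊆ Icc (-1 : ℝ) 1 ×ˢ Icc (-1 : ℝ) 1 := by
      intro x hx
      have h1 := h.sub hx
      simp only [sq, Quad.rot, mem_ofPred_eq] at h1
      simp only [mem_prod, mem_Icc]
      refine ⟨⟨by linarith, by linarith⟩, ⟨by linarith, by linarith⟩⟩
    exact (isCompact_Icc.prod isCompact_Icc).of_isClosed_subset hcl hsub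
  sub := by
    intro x hx
    have h1 := h.sub hx
    simp only [sq, Quad.rot, mem_ofPred_eq] at h1 ⊢
    refine ⟨by linarith, by linarith, by linarith, by linarith⟩
  pt := by
    intro x y hxy
    show (-y, x) ∈ S
    apply h.pt
    rcases hxy with ⟨hx, hy⟩ | ⟨hx, hy⟩
    · right
      refine ⟨?_, hx⟩
      rcases hy with rfl | rfl <;> simp
    · left
      refine ⟨?_, hx⟩
      rcases hy with rfl | rfl <;> simp

/-- the first quadrant for the direction `(1 - s, s)` -/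
def q1 (s : ℝ) : Set (ℝ × ℝ) := hp (dirn 1 s) 0 ∩ hp (rot (dirn 1 s)) 0

theorem mem_q1 (s : ℝ) (x : ℝ × ℝ) :
    x ∈ q1 s ↔ 0 ≤ (1 - s) * x.1 + s * x.2 ∧ 0 ≤ (1 - s) * x.2 - s * x.1 := by
  simp only [q1, hp, dot, dirn, rot, mem_inter_iff, mem_ofPred_eq]
  constructor <;> rintro ⟨h1, h2⟩ <;> constructor <;> linarith

theorem measurable_q1 (s : ℝ) : MeasurableSet (q1 s) :=
  ((isClosed_hp _ _).inter (isClosed_hp _ _)).measurableSet

theorem box_sub_q1 {s : ℝ} (h0 : 0 < s) (h1 : s < 1 / 5) : box ⊆ q1 s := by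
  rintro x ⟨hx1, hx2, hx3, hx4⟩
  rw [mem_q1]
  constructor
  · have := mul_nonneg h0.le (show (0 : ℝ) ≤ x.2 by linarith)
    have := mul_nonneg (show (0 : ℝ) ≤ 1 - s by linarith) (show (0 : ℝ) ≤ x.1 by linarith)
    linarith
  · have h2 : s * x.1 ≤ 1 / 5 * 1 := mul_le_mul h1.le hx2 (by linarith) (by norm_num)
    have h3 : 4 / 5 * (1 / 2) ≤ (1 - s) * x.2 :=
      mul_le_mul (by linarith) hx3 (by norm_num) (by linarith)
    linarith

theorem quarter {S : Set (ℝ × ℝ)} (h : Good S) {s : ℝ} (h0 : 0 < s) (h1 : s < 1 / 5) :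
    volume.real (S ∩ q1 s) = volume.real ((sq ∩ q1 s) \ box) + volume.real (S ∩ box) := by
  have hfin : volume (S ∩ q1 s) ≠ ⊤ :=
    measure_ne_top_of_subset inter_subset_left (vol_ne_top h.comp)
  have e := measureReal_inter_add_sdiff (μ := volume) (s := S ∩ q1 s) (t := box) measurable_box hfin
  have e1 : S ∩ q1 s ∩ box = S ∩ box := by
    ext x
    constructor
    · rintro ⟨⟨h2, -⟩, h3⟩
      exact ⟨h2, h3⟩
    · rintro ⟨h2, h3⟩
      exact ⟨⟨h2, box_sub_q1 h0 h1 h3⟩, h3⟩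
  have e2 : (S ∩ q1 s) \ box = (sq ∩ q1 s) \ box := by
    ext x
    constructor
    · rintro ⟨⟨h2, h3⟩, h4⟩
      exact ⟨⟨h.sub h2, h3⟩, h4⟩
    · rintro ⟨⟨h2, h3⟩, h4⟩
      refine ⟨⟨?_, h3⟩, h4⟩
      rw [mem_q1] at h3
      obtain ⟨h5, h6, h7, h8⟩ := h2
      obtain ⟨h9, h10⟩ := h3
      have hx1 : -(1 / 2) ≤ x.1 := by
        by_contra hc
        push Not at hc
        have h11 : (1 - s) * x.1 < (1 - s) * (-(1 / 2)) :=
          mul_lt_mul_of_pos_left hc (by linarith)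
        have h12 : s * x.2 ≤ s * 1 := mul_le_mul_of_nonneg_left h8 h0.le
        linarith
      have hx2 : -(1 / 2) ≤ x.2 := by
        by_contra hc
        push Not at hc
        have h11 : (1 - s) * x.2 < (1 - s) * (-(1 / 2)) :=
          mul_lt_mul_of_pos_left hc (by linarith)
        have h12 : s * (-1) ≤ s * x.1 := mul_le_mul_of_nonneg_left h5 h0.le
        linarith
      by_cases h13 : x.1 ≤ 1 / 2
      · exact rect_mem h.conv (h.pt (-(1 / 2)) (-1) (by norm_num)) (h.pt (-(1 / 2)) 1 (by norm_num))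
          (h.pt (1 / 2) (-1) (by norm_num)) (h.pt (1 / 2) 1 (by norm_num)) hx1 h13 h7 h8
      · by_cases h14 : x.2 ≤ 1 / 2
        · exact rect_mem h.conv (h.pt (-1) (-(1 / 2)) (by norm_num))
            (h.pt (-1) (1 / 2) (by norm_num)) (h.pt 1 (-(1 / 2)) (by norm_num))
            (h.pt 1 (1 / 2) (by norm_num)) h5 h6 hx2 h14
        · exact absurd ⟨(not_le.1 h13).le, h6, (not_le.1 h14).le, h8⟩ h4
  rw [e1, e2] at e
  linarith

theorem upper {A : Set (ℝ × ℝ)} (hA : A ⊆ box) {a : ℝ} (h0 : 0 < a) (h1 : a ≤ 1 / 2)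
    (h : ∀ x ∈ A, x.1 + x.2 ≤ 2 - a) : volume.real A ≤ 1 / 4 - a ^ 2 / 2 := by
  set T := tri ((1, 1) : ℝ × ℝ) (-a, 0) (0, -a) with hT
  have hvT : volume T = ENNReal.ofReal (a ^ 2 / 2) := by
    rw [hT, volume_tri]
    congr 1
    have : det ((-a, 0) : ℝ × ℝ) (0, -a) = a ^ 2 := by
      simp only [det]
      ring
    rw [this, abs_of_nonneg (by positivity)]
  have hTs : T ⊆ box ∩ {x | 2 - a ≤ x.1 + x.2} := by
    rintro x ⟨s, t, hs, ht, hst, rfl⟩
    have h2 : s * a ≤ 1 / 2 := by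
      calc s * a ≤ 1 * (1 / 2) := mul_le_mul (by linarith) h1 h0.le (by norm_num)
        _ = 1 / 2 := by ring
    have h3 : t * a ≤ 1 / 2 := by
      calc t * a ≤ 1 * (1 / 2) := mul_le_mul (by linarith) h1 h0.le (by norm_num)
        _ = 1 / 2 := by ring
    have h4 : 0 ≤ s * a := mul_nonneg hs h0.le
    have h5 : 0 ≤ t * a := mul_nonneg ht h0.le
    have h6 : (s + t) * a ≤ 1 * a := mul_le_mul_of_nonneg_right hst h0.le
    simp only [box, mem_inter_iff, mem_ofPred_eq, Prod.fst_add, Prod.snd_add, Prod.smul_fst,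
      Prod.smul_snd, smul_eq_mul]
    refine ⟨⟨?_, ?_, ?_, ?_⟩, ?_⟩ <;> linarith
  have hmT : MeasurableSet (box ∩ {x : ℝ × ℝ | 2 - a ≤ x.1 + x.2}) := by
    refine measurable_box.inter ?_
    exact (isClosed_le continuous_const (by fun_prop)).measurableSet
  set T' := box ∩ {x : ℝ × ℝ | 2 - a ≤ x.1 + x.2} with hT'
  have hnull : volume (A ∩ T') = 0 := by
    refine measure_mono_null ?_ (null_line 1 1 (-(2 - a)) (Or.inl one_ne_zero))
    rintro x ⟨h2, -, h3⟩
    have h3' : 2 - a ≤ x.1 + x.2 := h3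
    have := h x h2
    simp only [mem_ofPred_eq]
    linarith
  have e := measure_union_add_inter A hmT (μ := (volume : Measure (ℝ × ℝ)))
  rw [hnull, add_zero] at e
  have h2 : volume (A ∪ T') ≤ ENNReal.ofReal (1 / 4) := by
    rw [← volume_box]
    exact measure_mono (union_subset hA inter_subset_left)
  have h3 : ENNReal.ofReal (a ^ 2 / 2) ≤ volume T' := by
    rw [← hvT]
    exact measure_mono hTs
  have hAfin : volume A ≠ ⊤ := by
    refine measure_ne_top_of_subset hA ?_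
    rw [volume_box]
    exact ENNReal.ofReal_ne_top
  have h4 : volume A + ENNReal.ofReal (a ^ 2 / 2) ≤ ENNReal.ofReal (1 / 4) :=
    (add_le_add le_rfl h3).trans (e.symm.le.trans h2)
  have h5 := ENNReal.toReal_mono ENNReal.ofReal_ne_top h4
  rw [ENNReal.toReal_add hAfin ENNReal.ofReal_ne_top, ENNReal.toReal_ofReal (by positivity),
    ENNReal.toReal_ofReal (by norm_num)] at h5
  rw [measureReal_def]
  linarith

theorem corner {S : Set (ℝ × ℝ)} (h : Good S) {a : ℝ} (h0 : 0 < a) (h1 : a ≤ 1 / 2)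
    (hS : ∀ x ∈ S, x.1 + x.2 ≤ 2 - a) (ha1 : (1 - a, 1) ∈ S) (ha2 : (1, 1 - a) ∈ S) :
    volume.real (S ∩ box) = 1 / 4 - a ^ 2 / 2 := by
  apply le_antisymm
  · exact upper inter_subset_right h0 h1 fun x hx => hS x hx.1
  · have hX : ((1 / 2, 1 / 2) : ℝ × ℝ) ∈ S :=
      rect_mem h.conv (h.pt (-(1 / 2)) (-1) (by norm_num)) (h.pt (-(1 / 2)) 1 (by norm_num))
          (h.pt (1 / 2) (-1) (by norm_num)) (h.pt (1 / 2) 1 (by norm_num)) (by norm_num)
          (by norm_num) (by norm_num) (by norm_num)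
    have hfan := fan_lower ((1 / 2, 1 / 2) : ℝ × ℝ) [(1, 1 / 2), (1, 1 - a), (1 - a, 1), (1 / 2, 1)]
      (S ∩ box) (h.conv.inter convex_box) (h.comp.measurableSet.inter measurable_box)
      ⟨hX, by norm_num [box]⟩ (by
        intro b hb
        simp only [List.mem_cons, List.not_mem_nil, or_false] at hb
        rcases hb with rfl | rfl | rfl | rfl
        · exact ⟨h.pt 1 (1 / 2) (by norm_num), by norm_num [box]⟩
        · refine ⟨ha2, ?_⟩
          simp only [box, mem_ofPred_eq]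
          refine ⟨?_, ?_, ?_, ?_⟩ <;> linarith
        · refine ⟨ha1, ?_⟩
          simp only [box, mem_ofPred_eq]
          refine ⟨?_, ?_, ?_, ?_⟩ <;> linarith
        · exact ⟨h.pt (1 / 2) 1 (by norm_num), by norm_num [box]⟩)
      (by
        simp only [det, List.pairwise_cons, List.mem_cons, List.not_mem_nil, or_false,
          forall_eq_or_imp, forall_eq, Prod.mk_sub_mk, List.Pairwise.nil, and_true,
          IsEmpty.forall_iff, implies_true]
        refine ⟨⟨?_, ?_, ?_⟩, ⟨?_, ?_⟩, ?_⟩ <;> nlinarith)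
    have hne : volume (S ∩ box) ≠ ⊤ :=
      measure_ne_top_of_subset inter_subset_left (vol_ne_top h.comp)
    have h2 := (ENNReal.ofReal_le_iff_le_toReal hne).1 hfan
    rw [← measureReal_def] at h2
    refine le_trans (le_of_eq ?_) h2
    simp only [fanSum, det, Prod.mk_sub_mk]
    ring

end Pool.Agent.Q285.Quad
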